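import Pool.Agent.Lib.MP_391708_nt.X3.SpecV

/-!
# Theorem X for `k = 3` (MP_391708), part V, module BXS3 (helper26): `VT` and the tent forms
-/

set_option autoImplicit false

namespace Pool.Agent.Lib.MP391708.XV3

open Finset Filter Topology Pool.Agent.Lib.MP391708.MR
open Pool.Agent.Lib.MP391708.XV (md crs om1 om2 ls pos VT ncc TT EE ph hat atyp mc ms SU fU Par)
open Pool.Agent.Lib.MP391708.X3 (nz SpecWPC)
open scoped ComplexConjugate

namespace BXS3M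

open Pool.Agent.Lib.MP391708.XV.BXSM

/-- weighted count of the pairs with small `crs` -/
lemma wsum {Y B : ℝ} {t : ℕ} (ht : 1 ≤ t) (S : Finset Gi) (hS : S ⊆ disc Y) (w : Gi → ℝ)
    (hw : ∀ z, 0 ≤ w z) (D : Finset (Gi × Gi))
    (hD : ∀ q ∈ D, q.1 ∈ S ∧ q.2 ∈ S ∧ md t ∣ q.2 - q.1 ∧ |(crs q.2 q.1 : ℝ)| ≤ 8 * t * B) :
    ∑ q ∈ D, w q.1 ≤ ∑ z ∈ S, w z * (1 + (nz (4 * Y / (t : ℝ) ^ 2) (8 * B) z : ℝ)) := by
  classical
  have ht0 : (0 : ℝ) < t := by exact_mod_cast ht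
  have ht2 : (0 : ℝ) < (t : ℝ) ^ 2 := by positivity
  rw [← Finset.sum_fiberwise_of_maps_to (g := fun q : Gi × Gi => q.1) (t := S)
    (fun q hq => (hD q hq).1)]
  refine Finset.sum_le_sum fun z hz => ?_
  have e1 : ∑ q ∈ D.filter (fun q => q.1 = z), w q.1 =
      ((D.filter (fun q => q.1 = z)).card : ℝ) * w z := by
    rw [← nsmul_eq_mul, ← Finset.sum_const]
    exact Finset.sum_congr rfl fun q hq => by rw [(Finset.mem_filter.1 hq).2]
  rw [e1, mul_comm]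
  refine mul_le_mul_of_nonneg_left ?_ (hw z)
  have h1 : ((D.filter (fun q => q.1 = z)).erase (z, z)).card ≤
      nz (4 * Y / (t : ℝ) ^ 2) (8 * B) z := by
    unfold nz
    refine Finset.card_le_card_of_injOn (fun q => quo t q) ?_ ?_
    · intro q hq
      have hq1 := Finset.mem_erase.1 (Finset.mem_coe.1 hq)
      have hq2 := Finset.mem_filter.1 hq1.2
      obtain ⟨a1, a2, a3, a4⟩ := hD q hq2.1
      have e1 := quo_spec a3
      have m1 := mem_disc.1 (hS a1)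
      have m2 := mem_disc.1 (hS a2)
      simp only [coe_filter, Set.mem_ofPred_eq, mem_disc]
      refine ⟨⟨?_, ?_⟩, ?_⟩
      · intro h0
        rw [h0, mul_zero, sub_eq_zero] at e1
        refine hq1.1 (Prod.ext hq2.2 ?_)
        rw [e1]
        exact hq2.2
      · rw [le_div_iff₀ ht2, mul_comm, ← nm_sub e1]
        have := nm_sub_le q.1 q.2
        linarith [m1.2, m2.2]
      · rw [crs_sub e1, abs_mul, abs_of_pos ht0] at a4
        have h5 : (t : ℝ) * |(crs (quo t q) q.1 : ℝ)| ≤ (t : ℝ) * (8 * B) := by linarith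
        rw [← hq2.2]
        exact le_of_mul_le_mul_left h5 ht0
    · intro q hq q' hq' e
      have hq1 := Finset.mem_filter.1 (Finset.mem_erase.1 (Finset.mem_coe.1 hq)).2
      have hq2 := Finset.mem_filter.1 (Finset.mem_erase.1 (Finset.mem_coe.1 hq')).2
      refine quo_inj (hD q hq1.1).2.2.1 (hD q' hq2.1).2.2.1 ?_
      rw [Prod.mk.injEq]
      exact ⟨e, hq1.2.trans hq2.2.symm⟩
  have h2 : (D.filter (fun q => q.1 = z)).card ≤
      ((D.filter (fun q => q.1 = z)).erase (z, z)).card + 1 := by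
    have := Finset.pred_card_le_card_erase (s := D.filter (fun q => q.1 = z)) (a := (z, z))
    omega
  have h3 : (D.filter (fun q => q.1 = z)).card ≤ 1 + nz (4 * Y / (t : ℝ) ^ 2) (8 * B) z := by
    omega
  exact_mod_cast h3

/-- the same with the second component -/
lemma wsum' {Y B : ℝ} {t : ℕ} (ht : 1 ≤ t) (S : Finset Gi) (hS : S ⊆ disc Y) (w : Gi → ℝ)
    (hw : ∀ z, 0 ≤ w z) (D : Finset (Gi × Gi))
    (hD : ∀ q ∈ D, q.1 ∈ S ∧ q.2 ∈ S ∧ md t ∣ q.2 - q.1 ∧ |(crs q.2 q.1 : ℝ)| ≤ 8 * t * B) :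
    ∑ q ∈ D, w q.2 ≤ ∑ z ∈ S, w z * (1 + (nz (4 * Y / (t : ℝ) ^ 2) (8 * B) z : ℝ)) := by
  classical
  have h1 := wsum (B := B) ht S hS w hw (D.image Prod.swap) (by
    intro q hq
    obtain ⟨p, hp, rfl⟩ := Finset.mem_image.1 hq
    obtain ⟨a1, a2, a3, a4⟩ := hD p hp
    refine ⟨a2, a1, ?_, ?_⟩
    · change md t ∣ p.1 - p.2
      rw [← neg_sub]
      exact (dvd_neg).2 a3
    · change |(crs p.1 p.2 : ℝ)| ≤ _
      have h2 : crs p.1 p.2 = -crs p.2 p.1 := by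
        unfold crs
        ring
      rw [h2, Int.cast_neg, abs_neg]
      exact a4)
  rw [Finset.sum_image (fun a _ b _ h => Prod.swap_injective h)] at h1
  exact h1

end BXS3M

open BXS3M Classical in
open Pool.Agent.Lib.MP391708.XV.BXSM in
/-- **BXS3**: one `VT` is bounded by tent forms of the cells, mean square form. -/
theorem specBXS3 : SpecBXS3 := by
  have hKER : XV.SpecKER := XV.specKER
  have hEXB : XV.SpecEXB := XV.specEXB
  intro κ ρ η Y K B F t ι I L S g hκ hρ hη hη' hK hB ht hY hBY hF hS hL hL' hg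
  have ht0 : (0 : ℝ) < t := by exact_mod_cast ht
  set f : Gi → ℂ := fun z => ∑ β ∈ I, g β z with hf
  have hfF : ∀ z ∈ S, ‖f z‖ ≤ F := fun z hz => (norm_sum_le _ _).trans (hg z hz)
  have hS0 : ∀ z ∈ S, z ≠ 0 := fun z hz => (mem_disc.1 (hS hz)).1
  have hEE : 0 ≤ EE ρ η Y K B t := EE_nonneg hη hY hK
  -- the parameters of the tents
  have hρ0 : 0 < ρ := by linarith
  have hYρ : 0 < Y / ρ := div_pos hY hρ0
  set φ : ι → ι → ℝ := fun β β' => 4 * t * B / Real.sqrt (L β * L β') with hφ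
  have hsq : ∀ β ∈ I, ∀ β' ∈ I, Y / ρ ≤ Real.sqrt (L β * L β') := by
    intro β hβ β' hβ'
    have h1 := (hL β hβ).1
    have h2 := (hL β' hβ').1
    refine Real.le_sqrt_of_sq_le ?_
    rw [sq]
    exact mul_le_mul h1 h2 hYρ.le (hYρ.le.trans h1)
  have hφ0 : ∀ β ∈ I, ∀ β' ∈ I, 0 < φ β β' := fun β hβ β' hβ' =>
    div_pos (by positivity) (hYρ.trans_le (hsq β hβ β' hβ'))
  have hφπ : ∀ β ∈ I, ∀ β' ∈ I, φ β β' ≤ Real.pi := by
    intro β hβ β' hβ'
    have h1 := hsq β hβ β' hβ'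
    have h2 : φ β β' ≤ 1 := by
      rw [hφ]
      show 4 * t * B / Real.sqrt (L β * L β') ≤ 1
      rw [div_le_one (hYρ.trans_le h1)]
      refine le_trans ?_ h1
      rw [le_div_iff₀ hρ0]
      have : 0 < ρ * t * B := by positivity
      linarith
    linarith [Real.pi_gt_three]
  set m : ι → ι → ℝ := fun β β' => if L β < L β' then
    om1 κ ((Real.sqrt (L β) - Real.sqrt (L β')) ^ 2 / ((t : ℝ) ^ 2 * K)) else 0 with hm
  have hm0 : ∀ β β', 0 ≤ m β β' := fun β β' => by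
    show 0 ≤ (if L β < L β' then _ else _)
    split_ifs
    · exact om1_nonneg _ _
    · exact le_rfl
  have hm1 : ∀ β β', m β β' ≤ 1 := fun β β' => by
    show (if L β < L β' then _ else _) ≤ (1 : ℝ)
    split_ifs
    · exact om1_le_one _ _
    · exact zero_le_one
  -- the sets of pairs
  set Dc : Finset (Gi × Gi) := (S ×ˢ S).filter
    (fun q => IsCoprime q.1 (md t) ∧ md t ∣ q.2 - q.1) with hDc
  set Dn : Finset (Gi × Gi) := (S ×ˢ S).filter
    (fun q => ¬ IsCoprime q.1 (md t) ∧ md t ∣ q.2 - q.1) with hDn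
  set Zc : ℂ := ∑ q ∈ Dc, f q.1 * conj (f q.2) * ((krn κ K B t q.1 q.2 : ℝ) : ℂ) with hZc
  set Zn : ℂ := ∑ q ∈ Dn, f q.1 * conj (f q.2) * ((krn κ K B t q.1 q.2 : ℝ) : ℂ) with hZn
  have hVT : VT κ K B t S f = (Zc + Zn).re := by
    unfold VT
    congr 1
    have e1 : Zc + Zn = ∑ z ∈ S, ∑ z' ∈ S, (if md t ∣ z' - z then
        f z * conj (f z') * ((krn κ K B t z z' : ℝ) : ℂ) else 0) := by
      rw [hZc, hZn, hDc, hDn, Finset.sum_filter, Finset.sum_filter, ← Finset.sum_add_distrib,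
        Finset.sum_product]
      refine Finset.sum_congr rfl fun z _ => Finset.sum_congr rfl fun z' _ => ?_
      by_cases h1 : IsCoprime z (md t)
      · by_cases h2 : md t ∣ z' - z
        · rw [if_pos ⟨h1, h2⟩, if_neg (fun h => h.1 h1), if_pos h2, add_zero]
        · rw [if_neg (fun h => h2 h.2), if_neg (fun h => h2 h.2), if_neg h2, add_zero]
      · by_cases h2 : md t ∣ z' - z
        · rw [if_neg (fun h => h1 h.1), if_pos ⟨h1, h2⟩, if_pos h2, zero_add]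
        · rw [if_neg (fun h => h2 h.2), if_neg (fun h => h2 h.2), if_neg h2, add_zero]
    rw [e1]
    refine Finset.sum_congr rfl fun z _ => ?_
    rw [Finset.sum_filter]
    refine Finset.sum_congr rfl fun z' _ => ?_
    by_cases h2 : md t ∣ z' - z
    · by_cases h3 : pos z z'
      · rw [if_pos ⟨h2, h3⟩, if_pos h2, krn, if_pos h3]
      · rw [if_neg (fun h => h3 h.2), if_pos h2, krn, if_neg h3]
        simp
    · rw [if_neg (fun h => h2 h.1), if_neg h2]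
  -- the pairs not coprime to `t`
  have hN : ‖Zn‖ ≤ F ^ 2 * (2 * ncc t (2 * κ * K) (4 * B) S) := by
    have e1 : Zn = ∑ q ∈ Dn.filter (fun q => krn κ K B t q.1 q.2 ≠ 0),
        f q.1 * conj (f q.2) * ((krn κ K B t q.1 q.2 : ℝ) : ℂ) := by
      rw [hZn]
      symm
      refine Finset.sum_filter_of_ne fun q _ h h0 => h ?_
      rw [h0]
      simp
    have e2 : ‖Zn‖ ≤ ∑ q ∈ Dn.filter (fun q => krn κ K B t q.1 q.2 ≠ 0), F ^ 2 * 2 := by
      rw [e1]
      refine (norm_sum_le _ _).trans (Finset.sum_le_sum fun q hq => ?_)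
      rw [Finset.mem_filter, hDn, Finset.mem_filter, Finset.mem_product] at hq
      rw [norm_mul, norm_mul, RCLike.norm_conj, Complex.norm_real,
        Real.norm_of_nonneg (krn_nonneg _ _ _ _ _ _)]
      have a1 := hfF q.1 hq.1.1.1
      have a2 := hfF q.2 hq.1.1.2
      have a3 := krn_le_two κ K B t q.1 q.2
      calc ‖f q.1‖ * ‖f q.2‖ * krn κ K B t q.1 q.2 ≤ F * F * 2 :=
            mul_le_mul (mul_le_mul a1 a2 (norm_nonneg _) hF) a3 (krn_nonneg _ _ _ _ _ _)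
              (by positivity)
        _ = F ^ 2 * 2 := by ring
    rw [Finset.sum_const, nsmul_eq_mul] at e2
    have e3 := card_nc ht hκ hK hB S (Dn.filter (fun q => krn κ K B t q.1 q.2 ≠ 0)) (by
      intro q hq
      rw [Finset.mem_filter, hDn, Finset.mem_filter, Finset.mem_product] at hq
      exact ⟨hq.1.1.1, hq.1.2.1, hq.1.2.2, hq.2⟩)
    have e4 : ((Dn.filter (fun q => krn κ K B t q.1 q.2 ≠ 0)).card : ℝ) ≤
        (ncc t (2 * κ * K) (4 * B) S : ℝ) := by exact_mod_cast e3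
    have e5 : 0 ≤ F ^ 2 * 2 := by positivity
    calc ‖Zn‖ ≤ _ := e2
      _ ≤ (ncc t (2 * κ * K) (4 * B) S : ℝ) * (F ^ 2 * 2) := mul_le_mul_of_nonneg_right e4 e5
      _ = _ := by ring
  -- the main part
  set tr : ι → ι → Gi × Gi → ℝ := fun β β' q => tri (ang q.1 q.2 / φ β β') with htr
  set Mn : ι → ι → ℂ := fun β β' => ∑ q ∈ Dc, g β q.1 * conj (g β' q.2) *
    ((tr β β' q : ℝ) : ℂ) with hMn
  have hMn1 : ∀ β ∈ I, ∀ β' ∈ I, ‖Mn β β'‖ ≤ (TT t (φ β β') S (g β) + TT t (φ β β') S (g β')) / 2 := by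
    intro β hβ β' hβ'
    have h1 := hEXB t (φ β β') 1 S (g β) (g β') ht (hφ0 β hβ β' hβ') (hφπ β hβ β' hβ')
      (Or.inl rfl) hS0
    rw [nest (S := S) (fun z => IsCoprime z (md t)) (fun z z' => md t ∣ z' - z)] at h1
    simp only [one_mul] at h1
    exact h1
  have hTT0 : ∀ β ∈ I, ∀ β' ∈ I, ∀ h : Gi → ℂ, 0 ≤ TT t (φ β β') S h := by
    intro β hβ β' hβ' h
    have h1 := hEXB t (φ β β') 1 S h h ht (hφ0 β hβ β' hβ') (hφπ β hβ β' hβ') (Or.inl rfl) hS0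
    have h2 := (norm_nonneg _).trans h1
    linarith
  -- the error
  set Er : ℂ := ∑ q ∈ Dc, ∑ b ∈ I ×ˢ I, g b.1 q.1 * conj (g b.2 q.2) *
    ((krn κ K B t q.1 q.2 - 2 * (m b.1 b.2 * tr b.1 b.2 q) : ℝ) : ℂ) with hEr
  have hsplit : Zc = ∑ b ∈ I ×ˢ I, ((2 * m b.1 b.2 : ℝ) : ℂ) * Mn b.1 b.2 + Er := by
    have e1 : ∑ b ∈ I ×ˢ I, ((2 * m b.1 b.2 : ℝ) : ℂ) * Mn b.1 b.2 =
        ∑ q ∈ Dc, ∑ b ∈ I ×ˢ I, g b.1 q.1 * conj (g b.2 q.2) *
          ((2 * (m b.1 b.2 * tr b.1 b.2 q) : ℝ) : ℂ) := by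
      rw [Finset.sum_comm]
      refine Finset.sum_congr rfl fun b _ => ?_
      rw [hMn]
      simp only
      rw [Finset.mul_sum]
      refine Finset.sum_congr rfl fun q _ => ?_
      push_cast
      ring
    rw [e1, hEr, ← Finset.sum_add_distrib, hZc]
    refine Finset.sum_congr rfl fun q _ => ?_
    rw [← Finset.sum_add_distrib, hf]
    simp only
    rw [map_sum, Finset.sum_mul_sum, ← Finset.sum_product', Finset.sum_mul]
    refine Finset.sum_congr rfl fun b _ => ?_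
    push_cast
    ring
  set Gs : Gi → ℝ := fun z => ∑ β ∈ I, ‖g β z‖ with hGs
  have hGs0 : ∀ z, 0 ≤ Gs z := fun z => Finset.sum_nonneg fun _ _ => norm_nonneg _
  have hE : ‖Er‖ ≤ EE ρ η Y K B t * (∑ z ∈ S, Gs z ^ 2 *
      (1 + (nz (4 * Y / (t : ℝ) ^ 2) (8 * B) z : ℝ))) := by
    have e1 : ∀ q ∈ Dc, ‖∑ b ∈ I ×ˢ I, g b.1 q.1 * conj (g b.2 q.2) *
        ((krn κ K B t q.1 q.2 - 2 * (m b.1 b.2 * tr b.1 b.2 q) : ℝ) : ℂ)‖ ≤
        if |(crs q.2 q.1 : ℝ)| ≤ 8 * t * B then Gs q.1 * Gs q.2 * EE ρ η Y K B t else 0 := by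
      intro q hq
      rw [hDc, Finset.mem_filter, Finset.mem_product] at hq
      set δ : ℝ := if |(crs q.2 q.1 : ℝ)| ≤ 8 * t * B then EE ρ η Y K B t else 0 with hδ
      have e2 : ∀ b ∈ I ×ˢ I, ‖g b.1 q.1 * conj (g b.2 q.2) *
          ((krn κ K B t q.1 q.2 - 2 * (m b.1 b.2 * tr b.1 b.2 q) : ℝ) : ℂ)‖ ≤
          ‖g b.1 q.1‖ * ‖g b.2 q.2‖ * δ := by
        intro b hb
        rw [Finset.mem_product] at hb
        rw [norm_mul, norm_mul, RCLike.norm_conj, Complex.norm_real, Real.norm_eq_abs]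
        by_cases h1 : g b.1 q.1 = 0
        · rw [h1]; simp
        by_cases h2 : g b.2 q.2 = 0
        · rw [h2]; simp
        refine mul_le_mul_of_nonneg_left ?_ (by positivity)
        obtain ⟨a1, a2⟩ := hL' b.1 hb.1 q.1 hq.1.1 h1
        obtain ⟨a3, a4⟩ := hL' b.2 hb.2 q.2 hq.1.2 h2
        have h3 := hKER κ ρ η Y K B (L b.1) (L b.2) t q.1 q.2 hκ hρ hη hη' hK hB ht hY hBY
          (hL b.1 hb.1).1 (hL b.2 hb.2).1 (hL b.1 hb.1).2 (hL b.2 hb.2).2 a1 a2 a3 a4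
        exact h3
      refine (norm_sum_le _ _).trans ((Finset.sum_le_sum e2).trans ?_)
      rw [← Finset.sum_mul]
      have e0 : ∑ b ∈ I ×ˢ I, ‖g b.1 q.1‖ * ‖g b.2 q.2‖ = Gs q.1 * Gs q.2 := by
        rw [hGs]
        simp only
        rw [Finset.sum_mul_sum, Finset.sum_product]
      rw [e0, hδ]
      split_ifs
      · exact le_rfl
      · rw [mul_zero]
    have e4 : ‖Er‖ ≤ ∑ q ∈ Dc, if |(crs q.2 q.1 : ℝ)| ≤ 8 * t * B then
        Gs q.1 * Gs q.2 * EE ρ η Y K B t else 0 :=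
      (norm_sum_le _ _).trans (Finset.sum_le_sum e1)
    rw [← Finset.sum_filter] at e4
    have hD1 : ∀ q ∈ Dc.filter fun q => |(crs q.2 q.1 : ℝ)| ≤ 8 * t * B,
        q.1 ∈ S ∧ q.2 ∈ S ∧ md t ∣ q.2 - q.1 ∧ |(crs q.2 q.1 : ℝ)| ≤ 8 * t * B := by
      intro q hq
      rw [Finset.mem_filter, hDc, Finset.mem_filter, Finset.mem_product] at hq
      exact ⟨hq.1.1.1, hq.1.1.2, hq.1.2.2, hq.2⟩
    have e5 := wsum ht S hS (fun z => Gs z ^ 2) (fun z => sq_nonneg _)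
      (Dc.filter fun q => |(crs q.2 q.1 : ℝ)| ≤ 8 * t * B) hD1
    have e6 := wsum' ht S hS (fun z => Gs z ^ 2) (fun z => sq_nonneg _)
      (Dc.filter fun q => |(crs q.2 q.1 : ℝ)| ≤ 8 * t * B) hD1
    refine e4.trans ?_
    have e7 : ∑ q ∈ Dc.filter (fun q => |(crs q.2 q.1 : ℝ)| ≤ 8 * t * B),
        Gs q.1 * Gs q.2 * EE ρ η Y K B t ≤
        ∑ q ∈ Dc.filter (fun q => |(crs q.2 q.1 : ℝ)| ≤ 8 * t * B),
          (Gs q.1 ^ 2 * (EE ρ η Y K B t / 2) + Gs q.2 ^ 2 * (EE ρ η Y K B t / 2)) := by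
      refine Finset.sum_le_sum fun q _ => ?_
      have h1 : Gs q.1 * Gs q.2 ≤ (Gs q.1 ^ 2 + Gs q.2 ^ 2) / 2 := by
        nlinarith [sq_nonneg (Gs q.1 - Gs q.2)]
      have h2 := mul_le_mul_of_nonneg_right h1 hEE
      linarith
    refine e7.trans ?_
    rw [Finset.sum_add_distrib, ← Finset.sum_mul, ← Finset.sum_mul]
    have h8 : 0 ≤ EE ρ η Y K B t / 2 := by positivity
    have h9 := mul_le_mul_of_nonneg_right e5 h8
    have h10 := mul_le_mul_of_nonneg_right e6 h8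
    linarith
  have hM : ‖∑ b ∈ I ×ˢ I, ((2 * m b.1 b.2 : ℝ) : ℂ) * Mn b.1 b.2‖ ≤
      4 * ∑ β ∈ I, ∑ β' ∈ I, TT t (φ β β') S (g β) := by
    have e1 : ∀ b ∈ I ×ˢ I, ‖((2 * m b.1 b.2 : ℝ) : ℂ) * Mn b.1 b.2‖ ≤
        TT t (φ b.1 b.2) S (g b.1) + TT t (φ b.1 b.2) S (g b.2) := by
      intro b hb
      rw [Finset.mem_product] at hb
      rw [norm_mul, Complex.norm_real, Real.norm_of_nonneg (by linarith [hm0 b.1 b.2])]
      have h1 := hMn1 b.1 hb.1 b.2 hb.2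
      have h2 : 2 * m b.1 b.2 * ‖Mn b.1 b.2‖ ≤ 2 * 1 * ‖Mn b.1 b.2‖ :=
        mul_le_mul_of_nonneg_right (mul_le_mul_of_nonneg_left (hm1 _ _) (by norm_num))
          (norm_nonneg _)
      linarith
    refine (norm_sum_le _ _).trans ((Finset.sum_le_sum e1).trans ?_)
    rw [Finset.sum_add_distrib, Finset.sum_product, Finset.sum_product]
    have e2 : ∑ β ∈ I, ∑ β' ∈ I, TT t (φ β β') S (g β') =
        ∑ β ∈ I, ∑ β' ∈ I, TT t (φ β β') S (g β) := by
      rw [Finset.sum_comm]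
      refine Finset.sum_congr rfl fun β _ => Finset.sum_congr rfl fun β' _ => ?_
      have : φ β' β = φ β β' := by
        show 4 * t * B / Real.sqrt (L β' * L β) = 4 * t * B / Real.sqrt (L β * L β')
        rw [mul_comm (L β')]
      rw [this]
    rw [e2]
    have e3 : 0 ≤ ∑ β ∈ I, ∑ β' ∈ I, TT t (φ β β') S (g β) :=
      Finset.sum_nonneg fun β hβ => Finset.sum_nonneg fun β' hβ' => hTT0 β hβ β' hβ' _
    linarith
  rw [hVT]
  refine (Complex.abs_re_le_norm _).trans ((norm_add_le _ _).trans ?_)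
  rw [hsplit]
  have h9 := norm_add_le (∑ b ∈ I ×ˢ I, ((2 * m b.1 b.2 : ℝ) : ℂ) * Mn b.1 b.2) Er
  linarith

end Pool.Agent.Lib.MP391708.XV3
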