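import Pool.Agent.Lib.MP_391708_nt.X3.SpecV
import Pool.Agent.Lib.MP_391708_nt.X.V.FNA
import Pool.Agent.Lib.MP_391708_nt.MR.Basic

/-!
Theorem X for k = 3 (MP_391708_nt), part V, module FNA3: one `t` with `T0 < t ≤ T1`, with a mean square.
-/

set_option autoImplicit false

namespace Pool.Agent.Lib.MP391708.XV3

open Finset Filter Topology Pool.Agent.Lib.MP391708.MR
open Pool.Agent.Lib.MP391708.XV (md crs om1 om2 ls pos VT ncc TT EE ph hat atyp mc ms SU fU Par PN pcn)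
open Pool.Agent.Lib.MP391708.X3 (nz SpecWPC)
open scoped ComplexConjugate

namespace FNA3M

/-- the lower bound of the norm on the set of products -/
theorem SU_low {κ ρ K Y B η w M F : ℝ} {T0 T1 Km : ℕ} {I J : Finset ℕ} {L : ℕ → ℕ → ℝ}
    {P S : ℕ → Finset Gi} {h : ℕ → Gi → ℂ}
    (hp : Par κ ρ K Y B η w M F T0 T1 Km I J L P S h) :
    ∀ z ∈ SU I J P S, Y / ρ ≤ (nm z : ℝ) := by
  intro z hz
  obtain ⟨i, hi, j, hj, p, hpi, z', hz', rfl⟩ := XV.FNAM.mem_SU.1 hz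
  exact (hp.hL i hi j hj).1.trans (hp.hL' i hi j hj p hpi z' hz').1

/-- if `X < 1` there is no nonzero Gaussian integer of norm at most `X` -/
theorem nz_small {X D : ℝ} (hX : X < 1) (z : Gi) : nz X D z = 0 := by
  unfold nz
  rw [card_eq_zero, filter_eq_empty_iff]
  intro u hu
  exfalso
  obtain ⟨h1, h2⟩ := mem_disc.1 hu
  have h3 : (1 : ℝ) ≤ nm u := by exact_mod_cast nm_pos h1
  linarith

theorem sqrt_quot {Y t : ℝ} (hY : 0 < Y) (ht : 0 < t) :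
    Real.sqrt (4 * Y / t ^ 2) / Real.sqrt Y = 2 / t := by
  have h1 : 4 * Y / t ^ 2 = (2 / t) ^ 2 * Y := by
    field_simp
    ring
  rw [h1, Real.sqrt_mul (by positivity), Real.sqrt_sq (by positivity)]
  have h2 : 0 < Real.sqrt Y := Real.sqrt_pos.2 hY
  field_simp

/-- the mean square with the weight `1 + nz` -/
theorem err {CW : ℝ} (hCW : 0 < CW)
    (hW : ∀ (ρ X Y D F : ℝ) (S : Finset Gi) (f : Gi → ℝ),
      1 ≤ ρ → 1 ≤ X → X ≤ Y → 2 ≤ D → 0 ≤ F → S ⊆ disc Y → (∀ z ∈ S, Y / ρ ≤ (nm z : ℝ)) →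
      (∀ z ∈ S, |f z| ≤ F) →
        ∑ z ∈ S, f z ^ 2 * (nz X D z : ℝ) ≤
          CW * (Real.sqrt ρ * (D * Real.sqrt X / Real.sqrt Y) * ∑ z ∈ S, f z ^ 2 +
            F ^ 2 * Y * (1 + Real.log Y) ^ 2))
    {ρ Y B F G t : ℝ} (S : Finset Gi) (g : Gi → ℝ) (hρ : 1 ≤ ρ) (hY : 1 ≤ Y) (hB : 1 ≤ B)
    (hF : 0 ≤ F) (hG : 0 ≤ G) (ht : 2 ≤ t) (hS : S ⊆ disc Y)
    (hlow : ∀ z ∈ S, Y / ρ ≤ (nm z : ℝ)) (hg : ∀ z ∈ S, |g z| ≤ F * (1 + Real.log Y))
    (hg2 : ∑ z ∈ S, g z ^ 2 ≤ (1 + Real.log Y) * (G * Y)) :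
    ∑ z ∈ S, g z ^ 2 * (1 + (nz (4 * Y / t ^ 2) (8 * B) z : ℝ)) ≤
      (1 + 16 * CW * ρ) * ((1 + Real.log Y) ^ 4 * (G * (Y + B * Y / t) + F ^ 2 * Y)) := by
  have hY0 : 0 < Y := by linarith
  have ht0 : 0 < t := by linarith
  have hρ0 : 0 < ρ := by linarith
  have hl : 0 ≤ Real.log Y := Real.log_nonneg hY
  obtain ⟨ell, hell⟩ : ∃ ell : ℝ, ell = 1 + Real.log Y := ⟨_, rfl⟩
  rw [← hell] at hg hg2 ⊢
  have hell1 : 1 ≤ ell := by linarith
  have hell0 : 0 < ell := by linarith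
  have hl4 : ell ≤ ell ^ 4 := by
    calc ell = ell ^ 1 := (pow_one _).symm
      _ ≤ ell ^ 4 := pow_le_pow_right₀ hell1 (by norm_num)
  have hsum : ∑ z ∈ S, g z ^ 2 * (1 + (nz (4 * Y / t ^ 2) (8 * B) z : ℝ)) =
      ∑ z ∈ S, g z ^ 2 + ∑ z ∈ S, g z ^ 2 * (nz (4 * Y / t ^ 2) (8 * B) z : ℝ) := by
    rw [← sum_add_distrib]
    exact sum_congr rfl fun z _ => by ring
  rw [hsum]
  have h1 : ∑ z ∈ S, g z ^ 2 ≤ ell ^ 4 * (G * Y) := by
    refine hg2.trans ?_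
    have : 0 ≤ G * Y := by positivity
    gcongr
  have h2 : ∑ z ∈ S, g z ^ 2 * (nz (4 * Y / t ^ 2) (8 * B) z : ℝ) ≤
      16 * CW * ρ * (ell ^ 4 * (G * (B * Y / t))) + CW * (ell ^ 4 * (F ^ 2 * Y)) := by
    by_cases hX : 4 * Y / t ^ 2 < 1
    · have : ∑ z ∈ S, g z ^ 2 * (nz (4 * Y / t ^ 2) (8 * B) z : ℝ) = 0 := by
        refine sum_eq_zero fun z _ => ?_
        rw [nz_small hX]
        simp
      rw [this]
      positivity
    · rw [not_lt] at hX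
      have hXY : 4 * Y / t ^ 2 ≤ Y := by
        rw [div_le_iff₀ (by positivity)]
        have h4 : 4 ≤ t ^ 2 := by nlinarith
        nlinarith
      have h3 := hW ρ (4 * Y / t ^ 2) Y (8 * B) (F * ell) S g hρ hX hXY (by linarith)
        (by positivity) hS hlow hg
      rw [← hell] at h3
      refine h3.trans ?_
      have h4 : 8 * B * Real.sqrt (4 * Y / t ^ 2) / Real.sqrt Y = 16 * (B / t) := by
        rw [mul_div_assoc, sqrt_quot hY0 ht0]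
        ring
      rw [h4]
      have h5 : Real.sqrt ρ ≤ ρ := by
        rw [Real.sqrt_le_left hρ0.le]
        nlinarith
      have hs0 : 0 ≤ Real.sqrt ρ := Real.sqrt_nonneg _
      have h6 : Real.sqrt ρ * (16 * (B / t)) * ∑ z ∈ S, g z ^ 2 ≤
          ρ * (16 * (B / t)) * (ell ^ 4 * (G * Y)) := by
        have h7 : 0 ≤ ∑ z ∈ S, g z ^ 2 := sum_nonneg fun z _ => sq_nonneg _
        have h8 : 0 ≤ B / t := by positivity
        gcongr
      calc CW * (Real.sqrt ρ * (16 * (B / t)) * ∑ z ∈ S, g z ^ 2 + (F * ell) ^ 2 * Y * ell ^ 2)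
          ≤ CW * (ρ * (16 * (B / t)) * (ell ^ 4 * (G * Y)) + (F * ell) ^ 2 * Y * ell ^ 2) := by
            gcongr
        _ = 16 * CW * ρ * (ell ^ 4 * (G * (B * Y / t))) + CW * (ell ^ 4 * (F ^ 2 * Y)) := by
            ring
  have h9 : CW * (ell ^ 4 * (F ^ 2 * Y)) ≤ (1 + 16 * CW * ρ) * (ell ^ 4 * (F ^ 2 * Y)) := by
    have h10 : CW ≤ 1 + 16 * CW * ρ := by nlinarith
    have h11 : 0 ≤ ell ^ 4 * (F ^ 2 * Y) := by positivity
    exact mul_le_mul_of_nonneg_right h10 h11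
  have h12 : 0 ≤ 16 * CW * ρ * (ell ^ 4 * (G * Y)) := by positivity
  have h13 : 0 ≤ ell ^ 4 * (G * (B * Y / t)) := by positivity
  calc ∑ z ∈ S, g z ^ 2 + ∑ z ∈ S, g z ^ 2 * (nz (4 * Y / t ^ 2) (8 * B) z : ℝ)
      ≤ ell ^ 4 * (G * Y) + (16 * CW * ρ * (ell ^ 4 * (G * (B * Y / t))) +
        (1 + 16 * CW * ρ) * (ell ^ 4 * (F ^ 2 * Y))) := by linarith only [h1, h2, h9]
    _ ≤ ell ^ 4 * (G * Y) + (16 * CW * ρ * (ell ^ 4 * (G * (B * Y / t))) +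
        (1 + 16 * CW * ρ) * (ell ^ 4 * (F ^ 2 * Y))) + 16 * CW * ρ * (ell ^ 4 * (G * Y)) +
        ell ^ 4 * (G * (B * Y / t)) := by linarith only [h12, h13]
    _ = (1 + 16 * CW * ρ) * (ell ^ 4 * (G * (Y + B * Y / t) + F ^ 2 * Y)) := by ring

/-- the final inequality -/
theorem fin_ineq {C C1 C2 C3 C4 C5 V b1 a2 a3 a4 H n2 x : ℝ} (hH : 0 ≤ H) (h1 : 0 ≤ b1)
    (h2 : 0 ≤ a2) (h3 : 0 ≤ a3) (h4 : 0 ≤ a4) (hn : 0 ≤ n2) (hx : 0 ≤ x)
    (c1 : C1 ≤ C) (c2 : C2 ≤ C) (c3 : C3 ≤ C) (c4 : C4 ≤ C) (c5 : C5 ≤ C)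
    (hV : V ≤ C1 * b1 + C2 * (H * a2) + C3 * (H * (n2 * a3)) + C4 * (H * (n2 * a4)) +
      C5 * x) :
    V ≤ C * (b1 + H * (a2 + n2 * (a3 + a4))) + C * x := by
  have e1 : C1 * b1 ≤ C * b1 := mul_le_mul_of_nonneg_right c1 (by positivity)
  have e2 : C2 * (H * a2) ≤ C * (H * a2) := mul_le_mul_of_nonneg_right c2 (by positivity)
  have e3 : C3 * (H * (n2 * a3)) ≤ C * (H * (n2 * a3)) :=
    mul_le_mul_of_nonneg_right c3 (by positivity)
  have e4 : C4 * (H * (n2 * a4)) ≤ C * (H * (n2 * a4)) :=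
    mul_le_mul_of_nonneg_right c4 (by positivity)
  have e5 : C5 * x ≤ C * x := mul_le_mul_of_nonneg_right c5 hx
  calc V ≤ C * b1 + C * (H * a2) + C * (H * (n2 * a3)) + C * (H * (n2 * a4)) + C * x := by
        linarith
    _ = C * (b1 + H * (a2 + n2 * (a3 + a4))) + C * x := by ring

end FNA3M

open XV.FNAM (mem_SU mc_ne SU_disc SU_rough ms_sub Y_two F_le pcn_t num1 num2 aux1 aux2 aux3)
open FNA3M

theorem specFNA3 (hBXS3 : SpecBXS3) (hHTM3 : SpecHTM3) (hWPC : SpecWPC) (hTTB : XV.SpecTTB)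
    (hPNC : XV.SpecPNC) (hPCN : XV.SpecPCN) (hNCS : XV.SpecNCS) (hHTM : XV.SpecHTM) :
    SpecFNA3 := by
  intro κ ρ hκ hρ
  obtain ⟨CP, hCP, hP⟩ := hPCN
  obtain ⟨CN, hCN, hN⟩ := hNCS
  obtain ⟨CW, hCW, hW⟩ := hWPC
  refine ⟨1000 * ρ ^ 2 * (1 + 16 * CW * ρ) + 16 * κ * CN + 4 * (9 + 8 * ρ * CP) +
    4 * Real.pi * (9 + 10 * ρ * CP) + 16 * ρ, by have := Real.pi_pos; positivity, ?_⟩
  intro K Y B η w M F G τ T0 T1 Km I J L P S h t hp3 hτ hT0 hT1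
  have hp := hp3.par
  have hG0 := hp3.hG0
  have hpi := Real.pi_pos
  have hκ0 : 0 < κ := by linarith
  have hρ0 : 0 < ρ := by linarith
  have hK0 : 0 < K := by linarith [hp.hK]
  have hB0 : 0 < B := by linarith [hp.hB]
  have hY2 : 2 ≤ Y := Y_two hp
  have hY0 : 0 < Y := by linarith
  have hY1 : 1 ≤ Y := by linarith
  have hM0 : 0 < M := by linarith [hp.hM]
  have ht2' : 2 ≤ t := by have := hp.hT0; omega
  have ht2 : (2 : ℝ) ≤ t := by exact_mod_cast ht2'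
  have ht0 : (0 : ℝ) < t := by linarith
  have ht1 : 1 ≤ t := by omega
  have htT1 : (t : ℝ) ≤ T1 := by exact_mod_cast hT1
  have hT0t : (T0 : ℝ) ≤ t := by exact_mod_cast hT0.le
  have hT0p : (1 : ℝ) ≤ T0 := by exact_mod_cast hp.hT0
  have hKm : (1 : ℝ) ≤ Km := by exact_mod_cast hp.hKm
  have htB : 32 * ρ * t * B ≤ Y := by
    refine le_trans ?_ hp.hBY
    gcongr
  have hl : 0 ≤ Real.log Y := Real.log_nonneg hY1
  set ell := 1 + Real.log Y with hell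
  have hell1 : 1 ≤ ell := by linarith
  have hell0 : 0 < ell := by linarith
  have hF := hp.hF
  have hw0 : 0 < w := by linarith [hp.hw]
  have hph : (0 : ℝ) ≤ ph t := Nat.cast_nonneg _
  set SS := SU I J P S with hSS
  have hSd : SS ⊆ disc Y := SU_disc hp
  have hF' : 0 ≤ F * ell := by positivity
  -- HTM
  have hsum : ∀ z ∈ disc Y, ∑ i ∈ I, ∑ j ∈ J, ‖mc (P i) (S j) (h j) z‖ ≤ F * ell :=
    hHTM.2 Y F I J P S h hY1 hF hp.hP hp.hPd hp.hh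
  -- BXS
  have hB1 := hBXS3 κ ρ η Y K B (F * ell) t (ℕ × ℕ) (I ×ˢ J) (fun β => L β.1 β.2) SS
    (fun β => mc (P β.1) (S β.2) (h β.2)) hκ hρ hp.hη hp.hη' hK0 hB0 ht1 hY0 htB hF' hSd
    (by
      intro β hβ
      rw [mem_product] at hβ
      exact hp.hL β.1 hβ.1 β.2 hβ.2)
    (by
      intro β hβ z _ hne
      rw [mem_product] at hβ
      obtain ⟨p, hpp, z', hz', rfl⟩ := mc_ne hne
      exact hp.hL' β.1 hβ.1 β.2 hβ.2 p hpp z' hz')
    (by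
      intro z hz
      rw [sum_product]
      exact hsum z (hSd hz))
  have hfU : (fun z => ∑ β ∈ I ×ˢ J, mc (P β.1) (S β.2) (h β.2) z) = fU I J P S h := by
    funext z
    unfold fU
    rw [sum_product]
  rw [hfU] at hB1
  -- (1)
  have hcard : ((SS.card : ℕ) : ℝ) ≤ 9 * Y := by
    refine le_trans ?_ (card_disc_le hY0.le)
    exact_mod_cast card_le_card hSd
  have hg2 : ∑ z ∈ SS, (∑ β ∈ I ×ˢ J, ‖mc (P β.1) (S β.2) (h β.2) z‖) ^ 2 ≤
      ell * (G * Y) := by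
    have h1 := hHTM3 Y I J P S h SS (disc M) hY1 hp.hP hp.hPd hSd hp.hS
    have h2 : ∑ z ∈ SS, (∑ β ∈ I ×ˢ J, ‖mc (P β.1) (S β.2) (h β.2) z‖) ^ 2 =
        ∑ z ∈ SS, (∑ i ∈ I, ∑ j ∈ J, ‖mc (P i) (S j) (h j) z‖) ^ 2 :=
      sum_congr rfl fun z _ => by rw [sum_product]
    rw [h2]
    refine h1.trans ?_
    rw [← hell]
    exact mul_le_mul_of_nonneg_left hp3.hG hell0.le
  have n1 : ∑ z ∈ SS, (∑ β ∈ I ×ˢ J, ‖mc (P β.1) (S β.2) (h β.2) z‖) ^ 2 *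
      (1 + (nz (4 * Y / (t : ℝ) ^ 2) (8 * B) z : ℝ)) ≤
      (1 + 16 * CW * ρ) * (ell ^ 4 * (G * (Y + B * Y / t) + F ^ 2 * Y)) :=
    err hCW hW SS (fun z => ∑ β ∈ I ×ˢ J, ‖mc (P β.1) (S β.2) (h β.2) z‖) hρ hY1 hp.hB hF hG0
      ht2 hSd (SU_low hp)
      (by
        intro z hz
        rw [abs_of_nonneg (sum_nonneg fun β _ => norm_nonneg _), sum_product]
        exact hsum z (hSd hz))
      hg2
  obtain ⟨E, hE⟩ : ∃ E : ℝ, E = η * (Y / ((t : ℝ) ^ 2 * K) + 1) + (t * B / Y) ^ 2 +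
    B ^ 2 / (K * Y) := ⟨_, rfl⟩
  have hE0 : 0 ≤ E := by
    rw [hE]
    have := hp.hη
    positivity
  have hEE : EE ρ η Y K B t = 1000 * ρ ^ 2 * E := by rw [hE]; rfl
  obtain ⟨H, hH⟩ : ∃ H : ℝ, H = F ^ 2 * ell ^ 4 := ⟨_, rfl⟩
  have hH0 : 0 ≤ H := by rw [hH]; positivity
  have hH3 : F ^ 2 * ell ^ 3 ≤ H := by
    rw [hH]
    have : ell ^ 3 ≤ ell ^ 4 := pow_le_pow_right₀ hell1 (by norm_num)
    gcongr
  have hH1 : F ^ 2 * ell ≤ H := by
    rw [hH]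
    have : ell ≤ ell ^ 4 := by
      calc ell = ell ^ 1 := (pow_one _).symm
        _ ≤ ell ^ 4 := pow_le_pow_right₀ hell1 (by norm_num)
    gcongr
  have p1 : EE ρ η Y K B t * (∑ z ∈ SS, (∑ β ∈ I ×ˢ J, ‖mc (P β.1) (S β.2) (h β.2) z‖) ^ 2 *
      (1 + (nz (4 * Y / (t : ℝ) ^ 2) (8 * B) z : ℝ))) ≤
      1000 * ρ ^ 2 * (1 + 16 * CW * ρ) *
        (ell ^ 4 * (E * (G * (Y + B * Y / t) + F ^ 2 * Y))) := by
    rw [hEE]
    calc 1000 * ρ ^ 2 * E * (∑ z ∈ SS, (∑ β ∈ I ×ˢ J, ‖mc (P β.1) (S β.2) (h β.2) z‖) ^ 2 *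
          (1 + (nz (4 * Y / (t : ℝ) ^ 2) (8 * B) z : ℝ)))
        ≤ 1000 * ρ ^ 2 * E *
          ((1 + 16 * CW * ρ) * (ell ^ 4 * (G * (Y + B * Y / t) + F ^ 2 * Y))) :=
          mul_le_mul_of_nonneg_left n1 (by positivity)
      _ = _ := by ring
  -- (2)
  have hlt : 1 + Real.log t ≤ ell := by
    have h1 : (t : ℝ) ≤ Y := aux1 hρ hp.hB ht0 htB
    have := Real.log_le_log ht0 h1
    rw [hell]
    linarith only [this]
  have hlt0 : 0 ≤ 1 + Real.log (t : ℝ) := by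
    have := Real.log_nonneg (show (1 : ℝ) ≤ t by linarith only [ht2])
    linarith only [this]
  have n2 := hN (2 * κ * K) Y (4 * B) w t SS (by positivity) hp.hKY hY1 (by positivity) hp.hw ht1
    hSd (SU_rough hp)
  have hsq : Real.sqrt (2 * κ * K * Y) ≤ 2 * κ * Real.sqrt (K * Y) := by
    rw [show 2 * κ * K * Y = (2 * κ) * (K * Y) by ring, Real.sqrt_mul (by positivity)]
    gcongr
    rw [Real.sqrt_le_left (by positivity)]
    exact aux2 hκ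
  obtain ⟨s, hs⟩ : ∃ s : ℝ, s = Real.sqrt (K * Y) := ⟨_, rfl⟩
  have hs0 : 0 ≤ s := by rw [hs]; exact Real.sqrt_nonneg _
  rw [← hs] at hsq
  have p2 : (F * ell) ^ 2 * (2 * (ncc t (2 * κ * K) (4 * B) SS : ℝ)) ≤
      16 * κ * CN * (H * (B * s / w + B * K + s)) := by
    have h1 : (ncc t (2 * κ * K) (4 * B) SS : ℝ) ≤
        CN * ell * ell * (8 * κ * (B * s / w + B * K + s)) := by
      refine n2.trans ?_
      have h2 : 4 * B * Real.sqrt (2 * κ * K * Y) / w + 4 * B * (2 * κ * K) +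
          Real.sqrt (2 * κ * K * Y) ≤ 8 * κ * (B * s / w + B * K + s) :=
        aux3 hκ hB0 hw0 hs0 hK0 hsq
      have h6 : 0 ≤ 4 * B * Real.sqrt (2 * κ * K * Y) / w + 4 * B * (2 * κ * K) +
          Real.sqrt (2 * κ * K * Y) := by positivity
      calc CN * (1 + Real.log t) * (1 + Real.log Y) *
            (4 * B * Real.sqrt (2 * κ * K * Y) / w + 4 * B * (2 * κ * K) +
              Real.sqrt (2 * κ * K * Y))
          ≤ CN * ell * ell * (4 * B * Real.sqrt (2 * κ * K * Y) / w + 4 * B * (2 * κ * K) +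
              Real.sqrt (2 * κ * K * Y)) := by
            apply mul_le_mul_of_nonneg_right _ h6
            rw [← hell]
            gcongr
        _ ≤ CN * ell * ell * (8 * κ * (B * s / w + B * K + s)) := by gcongr
    calc (F * ell) ^ 2 * (2 * (ncc t (2 * κ * K) (4 * B) SS : ℝ))
        ≤ (F * ell) ^ 2 * (2 * (CN * ell * ell * (8 * κ * (B * s / w + B * K + s)))) := by gcongr
      _ = 16 * κ * CN * (H * (B * s / w + B * K + s)) := by rw [hH]; ring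
  -- (3)
  obtain ⟨A, hA⟩ : ∃ A : ℕ × ℕ → ℝ, A = fun β => ∑ q ∈ atyp t Km τ (P β.1),
      ‖hat t q.1 q.2 (P β.1) (fun _ => 1)‖ ^ 2 * ‖hat t q.1 q.2 (S β.2) (h β.2)‖ ^ 2 := ⟨_, rfl⟩
  have hA0 : ∀ β, 0 ≤ A β := by
    intro β
    rw [hA]
    exact sum_nonneg fun q _ => by positivity
  have p3 : ∀ β ∈ I ×ˢ J, ∀ β' ∈ I ×ˢ J,
      TT t (4 * t * B / Real.sqrt (L β.1 β.2 * L β'.1 β'.2)) SS (mc (P β.1) (S β.2) (h β.2)) ≤
        τ ^ 2 * (F ^ 2 * ((9 + 8 * ρ * CP) * ell * (M + B * M ^ 2 / (Y * t)))) +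
        16 * ρ / 4 * (B / Y * (t / ph t) * A β) +
        Real.pi * Y / (t * B * Km) * (F * ell) ^ 2 *
          ((9 + 10 * ρ * CP) * ell * (Y + B * Y / t)) := by
    intro β hβ β' hβ'
    rw [mem_product] at hβ hβ'
    have hL1 := hp.hL β.1 hβ.1 β.2 hβ.2
    have hL2 := hp.hL β'.1 hβ'.1 β'.2 hβ'.2
    have hexp : 1 ≤ Real.exp η := Real.one_le_exp hp.hη
    have hYρ : 0 < Y / ρ := by positivity
    have hl1 : 0 < L β.1 β.2 := hYρ.trans_le hL1.1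
    have hl2 : 0 < L β'.1 β'.2 := hYρ.trans_le hL2.1
    have hu1 : L β.1 β.2 ≤ Y := (le_mul_of_one_le_left hl1.le hexp).trans hL1.2
    have hu2 : L β'.1 β'.2 ≤ Y := (le_mul_of_one_le_left hl2.le hexp).trans hL2.2
    obtain ⟨q, hq⟩ : ∃ q : ℝ, q = Real.sqrt (L β.1 β.2 * L β'.1 β'.2) := ⟨_, rfl⟩
    have hq1 : Y / ρ ≤ q := by
      rw [hq]
      apply Real.le_sqrt_of_sq_le
      rw [sq]
      exact mul_le_mul hL1.1 hL2.1 hYρ.le hl1.le
    have hq2 : q ≤ Y := by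
      rw [hq, Real.sqrt_le_left hY0.le, sq]
      exact mul_le_mul hu1 hu2 hl2.le hY0.le
    have hq0 : 0 < q := hYρ.trans_le hq1
    rw [← hq]
    obtain ⟨φ, hφ⟩ : ∃ φ : ℝ, φ = 4 * t * B / q := ⟨_, rfl⟩
    rw [← hφ]
    have hφ0 : 0 < φ := by rw [hφ]; positivity
    have hφ1 : φ ≤ 4 * ρ * t * B / Y := by
      rw [hφ, div_le_div_iff₀ hq0 hY0]
      have h1 : Y ≤ ρ * q := by
        rw [div_le_iff₀ hρ0] at hq1
        linarith only [hq1]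
      have h2 : 0 ≤ 4 * t * B := by positivity
      have h3 := mul_le_mul_of_nonneg_left h1 h2
      linarith only [h3]
    have hφ2 : 4 * t * B / Y ≤ φ := by
      rw [hφ]
      gcongr
    have hφ3 : φ ≤ 1 := by
      refine hφ1.trans ?_
      rw [div_le_one hY0]
      have h1 : 0 ≤ ρ * t * B := by positivity
      linarith only [htB, h1]
    have hφpi : φ ≤ Real.pi := by linarith only [Real.pi_gt_three, hφ3]
    have hφKm : Real.pi ≤ 2 * φ * Km := by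
      have h1 : 4 * T0 * B / Y ≤ φ := by
        refine le_trans ?_ hφ2
        gcongr
      have h2 : Real.pi ≤ 2 * (4 * T0 * B / Y) * Km := by
        have h3 : 2 * (4 * T0 * B / Y) * Km = 8 * T0 * B * Km / Y := by ring
        rw [h3, le_div_iff₀ hY0]
        exact hp.hKm'
      refine h2.trans ?_
      gcongr
    have hnz : ∀ z ∈ SS, z ≠ 0 := fun z hz => (mem_disc.1 (hSd hz)).1
    have hnz' : ∀ z ∈ S β.2, z ≠ 0 := fun z hz => (mem_disc.1 (hp.hS β.2 hβ.2 hz)).1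
    have hmcF : ∀ z ∈ SS, ‖mc (P β.1) (S β.2) (h β.2) z‖ ≤ F * ell := by
      intro z hz
      refine le_trans ?_ (hsum z (hSd hz))
      refine le_trans ?_ (single_le_sum (f := fun i => ∑ j ∈ J, ‖mc (P i) (S j) (h j) z‖)
        (fun i _ => sum_nonneg fun j _ => norm_nonneg _) hβ.1)
      exact single_le_sum (f := fun j => ‖mc (P β.1) (S j) (h j) z‖)
        (fun j _ => norm_nonneg _) hβ.2
    have hT := hTTB t Km φ τ (F * ell) (P β.1) (S β.2) SS (h β.2) ht1 hp.hKm hφ0 hφpi hφKm hτ hF'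
      hnz hnz' (ms_sub hβ.1 hβ.2) hmcF
    refine hT.trans ?_
    -- first term
    have t1 : TT t φ (S β.2) (h β.2) ≤
        F ^ 2 * ((9 + 8 * ρ * CP) * ell * (M + B * M ^ 2 / (Y * t))) := by
      refine (hPNC.1 t φ F (S β.2) (h β.2) ht1 hφ0 hF (F_le hp hβ.2)).trans ?_
      apply mul_le_mul_of_nonneg_left _ (by positivity)
      refine (hPNC.2 t φ M (S β.2) ht1 hφ0 (hp.hS β.2 hβ.2)).trans ?_
      refine num2 hCP.le hP hp.hM hp.hMY ht2 hp.hB hρ hφ0 hφ1 ?_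
      refine le_trans ?_ (card_disc_le hM0.le)
      exact_mod_cast card_le_card (hp.hS β.2 hβ.2)
    -- third term
    have t3 : (PN t φ SS : ℝ) ≤ (9 + 10 * ρ * CP) * ell * (Y + B * Y / t) := by
      refine (hPNC.2 t φ Y SS ht1 hφ0 hSd).trans ?_
      have h1 : (9 + 2 * (5 * ρ) * CP) * ell * (Y + B * Y / t) =
          (9 + 10 * ρ * CP) * ell * (Y + B * Y / t) := by ring
      rw [← h1]
      refine num1 hCP.le hP hY1 (by positivity) ht2 hp.hB (by linarith only [hρ]) ?_ hcard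
      have h2 : Y * φ / t ≤ 4 * ρ * B := by
        calc Y * φ / t ≤ Y * (4 * ρ * t * B / Y) / t := by gcongr
          _ = 4 * ρ * B := by field_simp
      have h3 : 1 ≤ ρ * B := one_le_mul_of_one_le_of_one_le hρ hp.hB
      linarith only [h2, h3]
    have t3' : 4 * Real.pi / (φ * Km) ≤ Real.pi * Y / (t * B * Km) := by
      calc 4 * Real.pi / (φ * Km) ≤ 4 * Real.pi / (4 * t * B / Y * Km) := by gcongr
        _ = Real.pi * Y / (t * B * Km) := by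
            field_simp
    -- second term
    have t2 : φ / ph t * A β ≤ 16 * ρ / 4 * (B / Y * (t / ph t) * A β) := by
      have h1 : φ / ph t ≤ 4 * ρ * t * B / Y / ph t := by gcongr
      calc φ / ph t * A β ≤ 4 * ρ * t * B / Y / ph t * A β :=
            mul_le_mul_of_nonneg_right h1 (hA0 β)
        _ = 16 * ρ / 4 * (B / Y * (t / ph t) * A β) := by ring
    have hAβ : A β = ∑ q ∈ atyp t Km τ (P β.1),
      ‖hat t q.1 q.2 (P β.1) (fun _ => 1)‖ ^ 2 * ‖hat t q.1 q.2 (S β.2) (h β.2)‖ ^ 2 := by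
      rw [hA]
    rw [← hAβ]
    have hPN0 : (0 : ℝ) ≤ PN t φ SS := Nat.cast_nonneg _
    have t4 : 4 * Real.pi / (φ * Km) * (F * ell) ^ 2 * (PN t φ SS : ℝ) ≤
        Real.pi * Y / (t * B * Km) * (F * ell) ^ 2 *
          ((9 + 10 * ρ * CP) * ell * (Y + B * Y / t)) := by
      gcongr
    have t5 : τ ^ 2 * TT t φ (S β.2) (h β.2) ≤
        τ ^ 2 * (F ^ 2 * ((9 + 8 * ρ * CP) * ell * (M + B * M ^ 2 / (Y * t)))) := by
      gcongr
    linarith only [t2, t4, t5]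
  -- sum over the pairs of cells
  obtain ⟨n, hn⟩ : ∃ n : ℝ, n = (I.card : ℝ) * J.card := ⟨_, rfl⟩
  have hn0 : 0 ≤ n := by rw [hn]; positivity
  have hcardn : ((I ×ˢ J).card : ℝ) = n := by rw [card_product, hn]; push_cast; ring
  obtain ⟨X1, hX1⟩ : ∃ X1 : ℝ, X1 =
    τ ^ 2 * (F ^ 2 * ((9 + 8 * ρ * CP) * ell * (M + B * M ^ 2 / (Y * t)))) := ⟨_, rfl⟩
  obtain ⟨X3, hX3⟩ : ∃ X3 : ℝ, X3 = Real.pi * Y / (t * B * Km) * (F * ell) ^ 2 *
          ((9 + 10 * ρ * CP) * ell * (Y + B * Y / t)) := ⟨_, rfl⟩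
  have p4 : ∑ β ∈ I ×ˢ J, ∑ β' ∈ I ×ˢ J,
      TT t (4 * t * B / Real.sqrt (L β.1 β.2 * L β'.1 β'.2)) SS (mc (P β.1) (S β.2) (h β.2)) ≤
      n ^ 2 * X1 + n ^ 2 * X3 + n * (16 * ρ / 4 * (B / Y * (t / ph t))) * ∑ β ∈ I ×ˢ J, A β := by
    have h1 : ∑ β ∈ I ×ˢ J, ∑ β' ∈ I ×ˢ J,
      TT t (4 * t * B / Real.sqrt (L β.1 β.2 * L β'.1 β'.2)) SS (mc (P β.1) (S β.2) (h β.2)) ≤
        ∑ β ∈ I ×ˢ J, ∑ β' ∈ I ×ˢ J, (X1 + 16 * ρ / 4 * (B / Y * (t / ph t) * A β) + X3) := by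
      refine sum_le_sum fun β hβ => sum_le_sum fun β' hβ' => ?_
      rw [hX1, hX3]
      exact p3 β hβ β' hβ'
    refine h1.trans (le_of_eq ?_)
    simp only [sum_const, nsmul_eq_mul, hcardn, mul_add, sum_add_distrib, ← mul_sum]
    ring
  have hAs : ∑ β ∈ I ×ˢ J, A β = ∑ i ∈ I, ∑ j ∈ J, ∑ q ∈ atyp t Km τ (P i),
      ‖hat t q.1 q.2 (P i) (fun _ => 1)‖ ^ 2 * ‖hat t q.1 q.2 (S j) (h j)‖ ^ 2 := by
    rw [hA, sum_product]
  have hAs0 : 0 ≤ ∑ β ∈ I ×ˢ J, A β := sum_nonneg fun β _ => hA0 β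
  -- final
  have hx1 : 4 * (n ^ 2 * X1) ≤
      4 * (9 + 8 * ρ * CP) * (H * (n ^ 2 * (τ ^ 2 * (M + B * M ^ 2 / (Y * t))))) := by
    rw [hX1]
    calc 4 * (n ^ 2 * (τ ^ 2 * (F ^ 2 * ((9 + 8 * ρ * CP) * ell * (M + B * M ^ 2 / (Y * t))))))
        = (4 * (9 + 8 * ρ * CP) * (n ^ 2 * (τ ^ 2 * (M + B * M ^ 2 / (Y * t))))) *
          (F ^ 2 * ell) := by ring
      _ ≤ (4 * (9 + 8 * ρ * CP) * (n ^ 2 * (τ ^ 2 * (M + B * M ^ 2 / (Y * t))))) * H := by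
          apply mul_le_mul_of_nonneg_left hH1
          positivity
      _ = 4 * (9 + 8 * ρ * CP) * (H * (n ^ 2 * (τ ^ 2 * (M + B * M ^ 2 / (Y * t))))) := by ring
  have hx3 : 4 * (n ^ 2 * X3) ≤
      4 * Real.pi * (9 + 10 * ρ * CP) *
        (H * (n ^ 2 * (Y / (t * B * Km) * (Y + B * Y / t)))) := by
    rw [hX3]
    calc 4 * (n ^ 2 * (Real.pi * Y / (t * B * Km) * (F * ell) ^ 2 *
          ((9 + 10 * ρ * CP) * ell * (Y + B * Y / t))))
        = (4 * Real.pi * (9 + 10 * ρ * CP) * (n ^ 2 * (Y / (t * B * Km) * (Y + B * Y / t)))) *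
          (F ^ 2 * ell ^ 3) := by ring
      _ ≤ (4 * Real.pi * (9 + 10 * ρ * CP) * (n ^ 2 * (Y / (t * B * Km) * (Y + B * Y / t)))) *
          H := by
          apply mul_le_mul_of_nonneg_left hH3
          positivity
      _ = _ := by ring
  have hV : |VT κ K B t SS (fU I J P S h)| ≤
      1000 * ρ ^ 2 * (1 + 16 * CW * ρ) *
        (ell ^ 4 * (E * (G * (Y + B * Y / t) + F ^ 2 * Y))) +
      16 * κ * CN * (H * (B * s / w + B * K + s)) +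
      4 * (9 + 8 * ρ * CP) * (H * (n ^ 2 * (τ ^ 2 * (M + B * M ^ 2 / (Y * t))))) +
      4 * Real.pi * (9 + 10 * ρ * CP) * (H * (n ^ 2 * (Y / (t * B * Km) * (Y + B * Y / t)))) +
      16 * ρ * (n * (B / Y) * (t / ph t) * ∑ β ∈ I ×ˢ J, A β) := by
    refine hB1.trans ?_
    have e2 : 4 * (n * (16 * ρ / 4 * (B / Y * (t / ph t))) * ∑ β ∈ I ×ˢ J, A β) =
        16 * ρ * (n * (B / Y) * (t / ph t) * ∑ β ∈ I ×ˢ J, A β) := by ring
    linarith only [p1, p2, p4, hx1, hx3, e2]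
  have hfin := fin_ineq (C := 1000 * ρ ^ 2 * (1 + 16 * CW * ρ) + 16 * κ * CN +
      4 * (9 + 8 * ρ * CP) + 4 * Real.pi * (9 + 10 * ρ * CP) + 16 * ρ)
    (H := H) (b1 := ell ^ 4 * (E * (G * (Y + B * Y / t) + F ^ 2 * Y)))
    (a2 := B * s / w + B * K + s)
    (a3 := τ ^ 2 * (M + B * M ^ 2 / (Y * t))) (a4 := Y / (t * B * Km) * (Y + B * Y / t))
    (n2 := n ^ 2) (x := n * (B / Y) * (t / ph t) * ∑ β ∈ I ×ˢ J, A β)
    hH0 (by positivity) (by positivity) (by positivity) (by positivity) (by positivity)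
    (by positivity)
    (by
      have : 0 ≤ 16 * κ * CN + 4 * (9 + 8 * ρ * CP) + 4 * Real.pi * (9 + 10 * ρ * CP) +
        16 * ρ := by positivity
      linarith only [this])
    (by
      have : 0 ≤ 1000 * ρ ^ 2 * (1 + 16 * CW * ρ) + 4 * (9 + 8 * ρ * CP) +
        4 * Real.pi * (9 + 10 * ρ * CP) + 16 * ρ := by positivity
      linarith only [this])
    (by
      have : 0 ≤ 1000 * ρ ^ 2 * (1 + 16 * CW * ρ) + 16 * κ * CN +
        4 * Real.pi * (9 + 10 * ρ * CP) + 16 * ρ := by positivity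
      linarith only [this])
    (by
      have : 0 ≤ 1000 * ρ ^ 2 * (1 + 16 * CW * ρ) + 16 * κ * CN + 4 * (9 + 8 * ρ * CP) +
        16 * ρ := by positivity
      linarith only [this])
    (by
      have : 0 ≤ 1000 * ρ ^ 2 * (1 + 16 * CW * ρ) + 16 * κ * CN + 4 * (9 + 8 * ρ * CP) +
        4 * Real.pi * (9 + 10 * ρ * CP) := by positivity
      linarith only [this])
    hV
  refine hfin.trans (le_of_eq ?_)
  rw [← hAs, ← hE, ← hs, ← hn, hH]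
  ring

end Pool.Agent.Lib.MP391708.XV3
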