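import Pool.Agent.Lib.MP_391708_nt.X3.SpecV
import Pool.Agent.Lib.MP_391708_nt.X.V.HTM

/-!
# Theorem X for `k = 3` of MP_391708_nt, part V, module HTM3 (helper72)
-/

set_option autoImplicit false

namespace Pool.Agent.Lib.MP391708.XV3

open Finset Filter Topology Pool.Agent.Lib.MP391708.MR
open Pool.Agent.Lib.MP391708.XV (md crs om1 om2 ls pos VT ncc TT EE ph hat atyp mc ms SU fU Par)
open Pool.Agent.Lib.MP391708.X3 (nz SpecWPC)
open scoped ComplexConjugate

namespace HTM3M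

open Classical in
theorem HH_eq (J : Finset ℕ) (S : ℕ → Finset Gi) (h : ℕ → Gi → ℂ) (z : Gi) :
    HH J S h z = ∑ j ∈ J, (if z ∈ S j then ‖h j z‖ else 0) := by
  unfold HH
  refine Finset.sum_congr rfl fun j _ => ?_
  by_cases hz : z ∈ S j
  · simp only [if_pos hz]
  · simp only [if_neg hz]

theorem HH_nonneg (J : Finset ℕ) (S : ℕ → Finset Gi) (h : ℕ → Gi → ℂ) (z : Gi) :
    0 ≤ HH J S h z := by
  classical
  rw [HH_eq]
  refine Finset.sum_nonneg fun j _ => ?_
  split_ifs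
  · exact norm_nonneg _
  · exact le_rfl

open Classical in
/-- The quotient sum. -/
noncomputable def q (J : Finset ℕ) (S : ℕ → Finset Gi) (h : ℕ → Gi → ℂ) (W : Finset Gi)
    (p z : Gi) : ℝ := ∑ s ∈ W, if p * s = z then HH J S h s else 0

open Classical in
theorem q_sq (J : Finset ℕ) (S : ℕ → Finset Gi) (h : ℕ → Gi → ℂ) (W : Finset Gi)
    (p z : Gi) (hp : p ≠ 0) :
    q J S h W p z ^ 2 = ∑ s ∈ W, if p * s = z then HH J S h s ^ 2 else 0 := by
  unfold q
  by_cases hd : ∃ s₀ ∈ W, p * s₀ = z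
  · obtain ⟨s₀, hW, hs₀⟩ := hd
    have e2 : ∀ s : Gi, p * s = z ↔ s = s₀ := by
      intro s
      rw [← hs₀]
      exact ⟨fun h => mul_left_cancel₀ hp h, fun h => by rw [h]⟩
    simp only [e2]
    rw [Finset.sum_ite_eq', Finset.sum_ite_eq', if_pos hW, if_pos hW]
  · have e1 : ∀ s ∈ W, (if p * s = z then HH J S h s else 0) = 0 := by
      intro s hs
      rw [if_neg]
      intro h
      exact hd ⟨s, hs, h⟩
    have e2 : ∀ s ∈ W, (if p * s = z then HH J S h s ^ 2 else 0) = 0 := by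
      intro s hs
      rw [if_neg]
      intro h
      exact hd ⟨s, hs, h⟩
    rw [Finset.sum_eq_zero e1, Finset.sum_eq_zero e2]
    norm_num

theorem q_zero (J : Finset ℕ) (S : ℕ → Finset Gi) (h : ℕ → Gi → ℂ) (W : Finset Gi)
    (p z : Gi) (hd : ¬ p ∣ z) : q J S h W p z = 0 := by
  classical
  unfold q
  refine Finset.sum_eq_zero fun s _ => ?_
  rw [if_neg]
  intro h
  exact hd ⟨s, h.symm⟩

theorem q_nonneg (J : Finset ℕ) (S : ℕ → Finset Gi) (h : ℕ → Gi → ℂ) (W : Finset Gi)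
    (p z : Gi) : 0 ≤ q J S h W p z := by
  classical
  unfold q
  refine Finset.sum_nonneg fun s _ => ?_
  split_ifs
  · exact HH_nonneg _ _ _ _
  · exact le_rfl

theorem mc_le (J : Finset ℕ) (S : ℕ → Finset Gi) (h : ℕ → Gi → ℂ) (W P : Finset Gi)
    (hS : ∀ j ∈ J, S j ⊆ W) (z : Gi) :
    ∑ j ∈ J, ‖mc P (S j) (h j) z‖ ≤ ∑ p ∈ P, q J S h W p z := by
  classical
  have e1 : ∀ j ∈ J, ‖mc P (S j) (h j) z‖ ≤
      ∑ p ∈ P, ∑ s ∈ S j, (if p * s = z then ‖h j s‖ else 0) := by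
    intro j _
    unfold mc
    refine (norm_sum_le _ _).trans (le_of_eq ?_)
    rw [← Finset.sum_product', Finset.sum_filter]
  refine (Finset.sum_le_sum e1).trans (le_of_eq ?_)
  rw [Finset.sum_comm]
  refine Finset.sum_congr rfl fun p _ => ?_
  unfold q
  have e2 : ∀ j ∈ J, ∑ s ∈ S j, (if p * s = z then ‖h j s‖ else 0) =
      ∑ s ∈ W, (if p * s = z then (if s ∈ S j then ‖h j s‖ else 0) else 0) := by
    intro j hj
    rw [← Finset.sum_filter_add_sum_filter_not W (fun s => s ∈ S j)]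
    have e3 : W.filter (fun s => s ∈ S j) = S j := by
      ext s
      rw [Finset.mem_filter]
      exact ⟨fun h => h.2, fun h => ⟨hS j hj h, h⟩⟩
    rw [e3]
    have e4 : ∑ s ∈ W.filter (fun s => ¬ s ∈ S j),
        (if p * s = z then (if s ∈ S j then ‖h j s‖ else 0) else 0) = 0 := by
      refine Finset.sum_eq_zero fun s hs => ?_
      rw [if_neg (Finset.mem_filter.1 hs).2]
      split_ifs <;> rfl
    rw [e4, add_zero]
    refine Finset.sum_congr rfl fun s hs => ?_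
    rw [if_pos hs]
  rw [Finset.sum_congr rfl e2, Finset.sum_comm]
  refine Finset.sum_congr rfl fun s _ => ?_
  rw [HH_eq]
  by_cases hs : p * s = z
  · simp only [if_pos hs]
  · simp only [if_neg hs]
    exact Finset.sum_const_zero

end HTM3M

open HTM3M

theorem specHTM3 : SpecHTM3 := by
  classical
  intro Y I J P S h T W hY hP hd hT hS
  have hl : 0 ≤ Real.log Y := Real.log_nonneg hY
  have hU : ∀ p ∈ I.biUnion P, p ∈ GP 0 Y := by
    intro p hp
    rw [Finset.mem_biUnion] at hp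
    obtain ⟨i, hi, hp⟩ := hp
    exact hP i hi hp
  have hcard : ((I.biUnion P).card : ℝ) = ∑ i ∈ I, ((P i).card : ℝ) := by
    rw [Finset.card_biUnion fun i hi j hj hne => hd i hi j hj hne]
    push_cast
    rfl
  have h1 : ∀ z, ∑ i ∈ I, ∑ j ∈ J, ‖mc (P i) (S j) (h j) z‖ ≤
      ∑ p ∈ I.biUnion P, q J S h W p z := by
    intro z
    rw [Finset.sum_biUnion fun i hi j hj hne => hd i hi j hj hne]
    exact Finset.sum_le_sum fun i _ => mc_le J S h W (P i) hS z
  have h2 : ∀ z ∈ T, (∑ i ∈ I, ∑ j ∈ J, ‖mc (P i) (S j) (h j) z‖) ^ 2 ≤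
      (1 + Real.log Y) * ∑ p ∈ I.biUnion P, q J S h W p z ^ 2 := by
    intro z hz
    have h0 : 0 ≤ ∑ i ∈ I, ∑ j ∈ J, ‖mc (P i) (S j) (h j) z‖ :=
      Finset.sum_nonneg fun i _ => Finset.sum_nonneg fun j _ => norm_nonneg _
    have h3 : ∑ p ∈ I.biUnion P, q J S h W p z =
        ∑ p ∈ (I.biUnion P).filter (fun p => p ∣ z), q J S h W p z := by
      rw [Finset.sum_filter]
      refine Finset.sum_congr rfl fun p _ => ?_
      by_cases hpz : p ∣ z
      · rw [if_pos hpz]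
      · rw [if_neg hpz, q_zero J S h W p z hpz]
    have h4 : (((I.biUnion P).filter (fun p => p ∣ z)).card : ℝ) ≤ Real.log Y := by
      refine XV.HTMM.card_le (hT hz) _ fun p hp => ?_
      rw [Finset.mem_filter] at hp
      exact ⟨hU p hp.1, hp.2⟩
    have h5 : (∑ p ∈ (I.biUnion P).filter (fun p => p ∣ z), q J S h W p z) ^ 2 ≤
        (((I.biUnion P).filter (fun p => p ∣ z)).card : ℝ) *
          ∑ p ∈ (I.biUnion P).filter (fun p => p ∣ z), q J S h W p z ^ 2 :=
      sq_sum_le_card_mul_sum_sq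
    have h6 : ∑ p ∈ (I.biUnion P).filter (fun p => p ∣ z), q J S h W p z ^ 2 ≤
        ∑ p ∈ I.biUnion P, q J S h W p z ^ 2 :=
      Finset.sum_le_sum_of_subset_of_nonneg (Finset.filter_subset _ _)
        fun p _ _ => sq_nonneg _
    have h7 : 0 ≤ ∑ p ∈ (I.biUnion P).filter (fun p => p ∣ z), q J S h W p z ^ 2 :=
      Finset.sum_nonneg fun p _ => sq_nonneg _
    calc (∑ i ∈ I, ∑ j ∈ J, ‖mc (P i) (S j) (h j) z‖) ^ 2
        ≤ (∑ p ∈ I.biUnion P, q J S h W p z) ^ 2 := pow_le_pow_left₀ h0 (h1 z) 2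
      _ ≤ _ := by rw [h3]; exact h5
      _ ≤ (1 + Real.log Y) *
          ∑ p ∈ (I.biUnion P).filter (fun p => p ∣ z), q J S h W p z ^ 2 :=
        mul_le_mul_of_nonneg_right (by linarith) h7
      _ ≤ _ := mul_le_mul_of_nonneg_left h6 (by linarith)
  refine (Finset.sum_le_sum h2).trans ?_
  rw [← Finset.mul_sum]
  refine mul_le_mul_of_nonneg_left ?_ (by linarith)
  rw [Finset.sum_comm, ← hcard, ← nsmul_eq_mul, ← Finset.sum_const]
  refine Finset.sum_le_sum fun p hp => ?_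
  have hp0 : p ≠ 0 := GP_ne_zero (hU p hp)
  rw [Finset.sum_congr rfl fun z _ => q_sq J S h W p z hp0, Finset.sum_comm]
  refine Finset.sum_le_sum fun s _ => ?_
  rw [Finset.sum_ite_eq]
  split_ifs
  · exact le_rfl
  · exact sq_nonneg _

end Pool.Agent.Lib.MP391708.XV3
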