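import Pool.Agent.Lib.MP_391708_nt.X3.SpecV

/-!
# Theorem X for `k = 3` (MP_391708), part V, module SML3: the trivial bound for one `t` in mean square
-/

set_option autoImplicit false

namespace Pool.Agent.Lib.MP391708.XV3

open Finset Filter Topology Pool.Agent.Lib.MP391708.MR
open Pool.Agent.Lib.MP391708.XV (md crs om1 om2 ls pos VT ncc TT EE ph hat atyp mc ms SU fU Par)
open Pool.Agent.Lib.MP391708.X3 (nz SpecWPC)
open scoped ComplexConjugate

namespace SML3M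

open Pool.Agent.Lib.MP391708.XV.SMLM

/-- the sum over the pairs by the fibres of `g` -/
lemma fib (X D' : ℝ) (S : Finset Gi) (D : Finset (Gi × Gi)) (g U : Gi × Gi → Gi) (f : Gi → ℂ)
    (hg : ∀ q ∈ D, g q ∈ S) (hU : ∀ q ∈ D, U q ∈ disc X ∧ |(crs (U q) (g q) : ℝ)| ≤ D')
    (hi : ∀ q ∈ D, ∀ q' ∈ D, g q = g q' → U q = U q' → q = q') :
    ∑ q ∈ D, ‖f (g q)‖ ^ 2 ≤ ∑ z ∈ S, ‖f z‖ ^ 2 * (nz X D' z : ℝ) := by
  classical
  rw [← Finset.sum_fiberwise_of_maps_to hg]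
  refine Finset.sum_le_sum fun z hz => ?_
  have e1 : ∑ q ∈ D with g q = z, ‖f (g q)‖ ^ 2 = ((D.filter (fun q => g q = z)).card : ℝ) * ‖f z‖ ^ 2 := by
    rw [Finset.sum_congr rfl (fun q hq => by rw [(mem_filter.1 hq).2] :
      ∀ q ∈ D.filter (fun q => g q = z), ‖f (g q)‖ ^ 2 = ‖f z‖ ^ 2)]
    rw [Finset.sum_const, nsmul_eq_mul]
  rw [e1, mul_comm]
  refine mul_le_mul_of_nonneg_left ?_ (by positivity)
  have e2 : (D.filter (fun q => g q = z)).card ≤ nz X D' z := by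
    unfold nz
    refine Finset.card_le_card_of_injOn U ?_ ?_
    · intro q hq
      have hq' := mem_filter.1 (Finset.mem_coe.1 hq)
      have h1 := hU q hq'.1
      rw [hq'.2] at h1
      exact Finset.mem_coe.2 (mem_filter.2 h1)
    · intro q hq q' hq' hqq
      have a := mem_filter.1 (Finset.mem_coe.1 hq)
      have b := mem_filter.1 (Finset.mem_coe.1 hq')
      exact hi q a.1 q' b.1 (a.2.trans b.2.symm) hqq
  exact_mod_cast e2

end SML3M

open Pool.Agent.Lib.MP391708.XV.SMLM SML3M Classical in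
theorem specSML3 : SpecSML3 := by
  intro κ K B Y t S f hκ hK hB ht hS
  have ht0 : (0 : ℝ) < t := by exact_mod_cast ht
  -- the kernel
  set ker : Gi → Gi → ℝ := fun z z' => om1 κ ((nm (z' - z) : ℝ) / ((t : ℝ) ^ 2 * K)) *
      om2 ((crs z' z : ℝ) / ((t : ℝ) * B)) with hker
  have hk0 : ∀ z z', 0 ≤ ker z z' := fun z z' => mul_nonneg (om1_nonneg _ _) (om2_nonneg _)
  have hk2 : ∀ z z', ker z z' ≤ 2 := fun z z' => by
    have h1 := om1_le_one κ ((nm (z' - z) : ℝ) / ((t : ℝ) ^ 2 * K))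
    have h2 := om2_le_two ((crs z' z : ℝ) / ((t : ℝ) * B))
    have h3 := om2_nonneg ((crs z' z : ℝ) / ((t : ℝ) * B))
    calc ker z z' ≤ 1 * 2 := mul_le_mul h1 h2 h3 zero_le_one
      _ = 2 := by norm_num
  set D : Finset (Gi × Gi) := (S ×ˢ S).filter (fun q => md t ∣ q.2 - q.1 ∧ ker q.1 q.2 ≠ 0) with hD
  -- step 1
  have e1 : |VT κ K B t S f| ≤ ∑ q ∈ D, (‖f q.1‖ ^ 2 + ‖f q.2‖ ^ 2) := by
    unfold VT
    refine (Complex.abs_re_le_norm _).trans ((norm_sum_le _ _).trans ?_)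
    have e2 : ∀ z ∈ S, ‖∑ z' ∈ S.filter (fun z' => md t ∣ z' - z ∧ pos z z'), f z * conj (f z') *
        ((om1 κ ((nm (z' - z) : ℝ) / ((t : ℝ) ^ 2 * K)) *
          om2 ((crs z' z : ℝ) / ((t : ℝ) * B)) : ℝ) : ℂ)‖ ≤
        ∑ z' ∈ S, (if md t ∣ z' - z ∧ ker z z' ≠ 0 then ‖f z‖ ^ 2 + ‖f z'‖ ^ 2 else 0) := by
      intro z hz
      refine (norm_sum_le _ _).trans ?_
      rw [Finset.sum_filter]
      refine Finset.sum_le_sum fun z' hz' => ?_
      have hF2 : 0 ≤ ‖f z‖ ^ 2 + ‖f z'‖ ^ 2 := by positivity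
      by_cases h1 : md t ∣ z' - z ∧ pos z z'
      · rw [if_pos h1]
        by_cases h2 : ker z z' = 0
        · have : ‖f z * conj (f z') * ((om1 κ ((nm (z' - z) : ℝ) / ((t : ℝ) ^ 2 * K)) *
              om2 ((crs z' z : ℝ) / ((t : ℝ) * B)) : ℝ) : ℂ)‖ = 0 := by
            have h3 : om1 κ ((nm (z' - z) : ℝ) / ((t : ℝ) ^ 2 * K)) *
              om2 ((crs z' z : ℝ) / ((t : ℝ) * B)) = 0 := h2
            rw [h3]; simp
          rw [this]
          split_ifs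
          · exact hF2
          · exact le_rfl
        · rw [if_pos ⟨h1.1, h2⟩, norm_mul, norm_mul, RCLike.norm_conj, Complex.norm_real,
            Real.norm_of_nonneg (hk0 z z')]
          have a3 := hk2 z z'
          calc ‖f z‖ * ‖f z'‖ * ker z z' ≤ ‖f z‖ * ‖f z'‖ * 2 :=
                mul_le_mul_of_nonneg_left a3 (by positivity)
            _ ≤ ‖f z‖ ^ 2 + ‖f z'‖ ^ 2 := by nlinarith [sq_nonneg (‖f z‖ - ‖f z'‖)]
      · rw [if_neg h1]
        split_ifs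
        · exact hF2
        · exact le_rfl
    refine (Finset.sum_le_sum e2).trans (le_of_eq ?_)
    rw [← Finset.sum_product' (f := fun z z' => if md t ∣ z' - z ∧ ker z z' ≠ 0 then
      ‖f z‖ ^ 2 + ‖f z'‖ ^ 2 else 0), ← Finset.sum_filter]
  -- step 2
  set u : Gi × Gi → Gi := fun q => if h : md t ∣ q.2 - q.1 then Classical.choose h else 0 with hu
  have hus : ∀ q ∈ D, q.2 - q.1 = md t * u q := by
    intro q hq
    rw [hD, mem_filter] at hq
    have h := hq.2.1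
    rw [hu]
    simp only [dif_pos h]
    exact Classical.choose_spec h
  have hmem : ∀ q ∈ D, q.1 ∈ S ∧ q.2 ∈ S := by
    intro q hq
    rw [hD, mem_filter, mem_product] at hq
    exact hq.1
  have key : ∀ q ∈ D, u q ∈ disc (2 * κ * K) ∧ |(crs (u q) q.1 : ℝ)| ≤ 4 * B ∧
      crs (u q) q.2 = crs (u q) q.1 := by
    intro q hq
    have h1 := hus q hq
    rw [hD, mem_filter, mem_product] at hq
    obtain ⟨⟨hz, hz'⟩, -, hne⟩ := hq
    have n1 : om1 κ ((nm (q.2 - q.1) : ℝ) / ((t : ℝ) ^ 2 * K)) ≠ 0 := left_ne_zero_of_mul hne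
    have n2 : om2 ((crs q.2 q.1 : ℝ) / ((t : ℝ) * B)) ≠ 0 := right_ne_zero_of_mul hne
    have hnm : (nm (q.2 - q.1) : ℝ) = (t : ℝ) ^ 2 * nm (u q) := by
      rw [h1, nm_mul, nm_md]; push_cast; ring
    have h3 : q.2 = md t * u q + q.1 := by rw [← h1]; ring
    have h4 : q.2.re = (t : ℤ) * (u q).re + q.1.re := by rw [h3]; simp
    have h5 : q.2.im = (t : ℤ) * (u q).im + q.1.im := by rw [h3]; simp
    have hcrs : (crs q.2 q.1 : ℝ) = (t : ℝ) * crs (u q) q.1 := by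
      have h2 : crs q.2 q.1 = (t : ℤ) * crs (u q) q.1 := by
        unfold crs
        rw [h4, h5]; ring
      rw [h2]; push_cast; ring
    have hcrs2 : crs (u q) q.2 = crs (u q) q.1 := by
      unfold crs
      rw [h4, h5]; ring
    rw [hnm] at n1
    have ht2 : (0 : ℝ) < (t : ℝ) ^ 2 := by positivity
    rw [mul_div_mul_left _ _ ht2.ne'] at n1
    rw [hcrs, mul_div_mul_left _ _ ht0.ne'] at n2
    have b1 := om1_ne hκ n1
    have b2 := om2_ne n2
    rw [div_lt_iff₀ hK] at b1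
    rw [abs_div, abs_of_pos hB, div_lt_iff₀ hB] at b2
    have b3 : u q ≠ 0 := by
      intro h0
      rw [h0] at n1
      apply n1
      rw [nm_zero]; simp [om1_zero]
    exact ⟨mem_disc.2 ⟨b3, b1.le⟩, b2.le, hcrs2⟩
  have s1 : ∑ q ∈ D, ‖f q.1‖ ^ 2 ≤ ∑ z ∈ S, ‖f z‖ ^ 2 * (nz (2 * κ * K) (4 * B) z : ℝ) := by
    refine fib (2 * κ * K) (4 * B) S D (fun q => q.1) u f (fun q hq => (hmem q hq).1)
      (fun q hq => ⟨(key q hq).1, (key q hq).2.1⟩) ?_
    intro q hq q' hq' h1 h2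
    have h1' : q.1 = q'.1 := h1
    have a1 := hus q hq
    have a2 := hus q' hq'
    refine Prod.ext h1' ?_
    have h3 : q.2 = md t * u q + q.1 := by rw [← a1]; ring
    have h4 : q'.2 = md t * u q' + q'.1 := by rw [← a2]; ring
    rw [h3, h4, h2, h1']
  have s2 : ∑ q ∈ D, ‖f q.2‖ ^ 2 ≤ ∑ z ∈ S, ‖f z‖ ^ 2 * (nz (2 * κ * K) (4 * B) z : ℝ) := by
    refine fib (2 * κ * K) (4 * B) S D (fun q => q.2) u f (fun q hq => (hmem q hq).2)
      (fun q hq => ⟨(key q hq).1, by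
        show |(crs (u q) q.2 : ℝ)| ≤ 4 * B
        rw [(key q hq).2.2]; exact (key q hq).2.1⟩) ?_
    intro q hq q' hq' h1 h2
    have h1' : q.2 = q'.2 := h1
    have a1 := hus q hq
    have a2 := hus q' hq'
    refine Prod.ext ?_ h1'
    have h3 : q.1 = q.2 - md t * u q := by rw [← a1]; ring
    have h4 : q'.1 = q'.2 - md t * u q' := by rw [← a2]; ring
    rw [h3, h4, h2, h1']
  calc |VT κ K B t S f| ≤ ∑ q ∈ D, (‖f q.1‖ ^ 2 + ‖f q.2‖ ^ 2) := e1
    _ = ∑ q ∈ D, ‖f q.1‖ ^ 2 + ∑ q ∈ D, ‖f q.2‖ ^ 2 := Finset.sum_add_distrib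
    _ ≤ 2 * ∑ z ∈ S, ‖f z‖ ^ 2 * (nz (2 * κ * K) (4 * B) z : ℝ) := by linarith

end Pool.Agent.Lib.MP391708.XV3
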