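import Pool.Agent.Lib.MP_391708_nt.X3.SpecV

/-!
# Theorem X for `k = 3` (MP_391708), part V, module VAR3 (helper26): the variance inequality
-/

set_option autoImplicit false

namespace Pool.Agent.Lib.MP391708.XV3

open Finset Filter Topology Pool.Agent.Lib.MP391708.MR
open Pool.Agent.Lib.MP391708.XV (md crs om1 om2 ls pos VT ncc TT EE ph hat atyp mc ms SU fU Par)
open Pool.Agent.Lib.MP391708.X3 (nz SpecWPC)
open scoped ComplexConjugate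

namespace VAR3M

/-- the arithmetic of the main part -/
lemma arith (K Y B η w M τ G F N Km ell sK T0 T1 : ℝ) (hK : 1 ≤ K) (hY : 1 ≤ Y) (hB : 1 ≤ B)
    (hη : 0 ≤ η) (hw : 2 ≤ w) (hM : 1 ≤ M) (hKm : 1 ≤ Km) (hell : 1 ≤ ell) (hsK : 0 ≤ sK)
    (hT0 : 1 ≤ T0) (hT1 : T0 ≤ T1) (hTB : T1 ≤ B) (hKs : K = Y * sK ^ 2) (hTs : T1 * sK ≤ 4)
    (hG : 0 ≤ G) :
    ((η * (Y / (T0 ^ 2 * K) + 1) + 17 * (B ^ 2 / (K * Y))) * (G * Y) +
        (1 + Y / (T0 ^ 2 * K)) * (F ^ 2 * Y) +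
        F ^ 2 * (B * (Y * sK) / w + B * K + Y * sK) + F ^ 2 * (N ^ 2 * (τ ^ 2 * M))) * T1 +
      ((η * (Y / (T0 ^ 2 * K) + 1) + 17 * (B ^ 2 / (K * Y))) * (G * (B * Y)) +
        F ^ 2 * (N ^ 2 * (τ ^ 2 * (B * M ^ 2 / Y) + Y / (B * Km) * Y))) * ell +
      F ^ 2 * (N ^ 2 * (Y / (B * Km) * (B * Y))) * (1 / T0) ≤
    34 * (B * Y * ell) *
      (G * (T0 * sK + η * (Y / (T0 ^ 2 * K) + 1) + B ^ 2 / (K * Y)) +
        F ^ 2 * (T1 / B * (1 + Y / (T0 ^ 2 * K)) + 1 / w + sK +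
          N ^ 2 * (τ ^ 2 * (T1 * M / (B * Y) + (M / Y) ^ 2) +
            Y / (B * Km) * (1 / B + 1 / T0)))) := by
  have hT0' : 0 < T0 := by linarith
  have hT1' : 0 < T1 := by linarith
  have hB' : 0 < B := by linarith
  have hY' : 0 < Y := by linarith
  have hK' : 0 < K := by linarith
  have hw' : 0 < w := by linarith
  have hM' : 0 < M := by linarith
  have hKm' : 0 < Km := by linarith
  have hell' : 0 < ell := by linarith
  obtain ⟨f, hf⟩ : ∃ f : ℝ, f = F ^ 2 := ⟨_, rfl⟩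
  have hf0 : 0 ≤ f := by rw [hf]; positivity
  rw [← hf]
  obtain ⟨e2, he2⟩ : ∃ e2 : ℝ, e2 = η * (Y / (T0 ^ 2 * K) + 1) := ⟨_, rfl⟩
  obtain ⟨e3, he3⟩ : ∃ e3 : ℝ, e3 = B ^ 2 / (K * Y) := ⟨_, rfl⟩
  obtain ⟨A', hA'⟩ : ∃ A' : ℝ, A' = 1 + Y / (T0 ^ 2 * K) := ⟨_, rfl⟩
  have p2 : 0 ≤ e2 := by rw [he2]; positivity
  have p3 : 0 ≤ e3 := by rw [he3]; positivity
  have pA : 1 ≤ A' := by
    rw [hA']
    have : 0 ≤ Y / (T0 ^ 2 * K) := by positivity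
    linarith
  have pA0 : 0 < A' := by linarith
  rw [← he2, ← he3, ← hA']
  -- the bounds
  have l1 : (e2 + 17 * e3) * (G * Y) * T1 ≤ (e2 + 17 * e3) * (G * (B * Y * ell)) := by
    have : Y * T1 ≤ B * Y * ell := by
      calc Y * T1 ≤ Y * B := by gcongr
        _ = B * Y * 1 := by ring
        _ ≤ B * Y * ell := by gcongr
    calc (e2 + 17 * e3) * (G * Y) * T1 = (e2 + 17 * e3) * (G * (Y * T1)) := by ring
      _ ≤ (e2 + 17 * e3) * (G * (B * Y * ell)) := by gcongr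
  have l3 : A' * (f * Y) * T1 ≤ f * (B * Y * ell * (T1 / B * A')) := by
    calc A' * (f * Y) * T1 = f * (B * Y * 1 * (T1 / B * A')) := by field_simp
      _ ≤ f * (B * Y * ell * (T1 / B * A')) := by gcongr
  have l4 : f * (B * (Y * sK) / w) * T1 ≤ 4 * (f * (B * Y * ell * (1 / w))) := by
    calc f * (B * (Y * sK) / w) * T1 = (T1 * sK) * (f * (B * Y * 1 * (1 / w))) := by ring
      _ ≤ 4 * (f * (B * Y * ell * (1 / w))) := by gcongr
  have l5 : f * (B * K) * T1 ≤ 4 * (f * (B * Y * ell * sK)) := by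
    calc f * (B * K) * T1 = (T1 * sK) * (f * (B * Y * 1 * sK)) := by rw [hKs]; ring
      _ ≤ 4 * (f * (B * Y * ell * sK)) := by gcongr
  have l6 : f * (Y * sK) * T1 ≤ 4 * (f * (B * Y * ell * (T1 / B * A'))) := by
    have h1 : 1 / B ≤ T1 / B * A' := by
      calc 1 / B = 1 / B * 1 := by ring
        _ ≤ T1 / B * A' := by
          gcongr
          linarith
    calc f * (Y * sK) * T1 = (T1 * sK) * (f * (B * Y * 1 * (1 / B))) := by field_simp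
      _ ≤ 4 * (f * (B * Y * ell * (T1 / B * A'))) := by gcongr
  have l7 : f * (N ^ 2 * (τ ^ 2 * M)) * T1 ≤
      f * (B * Y * ell * (N ^ 2 * (τ ^ 2 * (T1 * M / (B * Y))))) := by
    calc f * (N ^ 2 * (τ ^ 2 * M)) * T1 =
          f * (B * Y * 1 * (N ^ 2 * (τ ^ 2 * (T1 * M / (B * Y))))) := by field_simp
      _ ≤ f * (B * Y * ell * (N ^ 2 * (τ ^ 2 * (T1 * M / (B * Y))))) := by gcongr
  have l8 : f * (N ^ 2 * (τ ^ 2 * (B * M ^ 2 / Y))) * ell =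
      f * (B * Y * ell * (N ^ 2 * (τ ^ 2 * (M / Y) ^ 2))) := by
    field_simp
  have l9 : f * (N ^ 2 * (Y / (B * Km) * Y)) * ell =
      f * (B * Y * ell * (N ^ 2 * (Y / (B * Km) * (1 / B)))) := by
    field_simp
  have l10 : f * (N ^ 2 * (Y / (B * Km) * (B * Y))) * (1 / T0) ≤
      f * (B * Y * ell * (N ^ 2 * (Y / (B * Km) * (1 / T0)))) := by
    calc f * (N ^ 2 * (Y / (B * Km) * (B * Y))) * (1 / T0) =
          f * (B * Y * 1 * (N ^ 2 * (Y / (B * Km) * (1 / T0)))) := by ring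
      _ ≤ f * (B * Y * ell * (N ^ 2 * (Y / (B * Km) * (1 / T0)))) := by gcongr
  have q1 : 0 ≤ G * (B * Y * ell * (T0 * sK)) := by positivity
  have q2 : 0 ≤ e2 * (G * (B * Y * ell)) := by positivity
  have q3 : 0 ≤ e3 * (G * (B * Y * ell)) := by positivity
  have q4 : 0 ≤ f * (B * Y * ell * (T1 / B * A')) := by positivity
  have q5 : 0 ≤ f * (B * Y * ell * (1 / w)) := by positivity
  have q6 : 0 ≤ f * (B * Y * ell * sK) := by positivity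
  have q7 : 0 ≤ f * (B * Y * ell * (N ^ 2 * (τ ^ 2 * (T1 * M / (B * Y))))) := by positivity
  have q8 : 0 ≤ f * (B * Y * ell * (N ^ 2 * (τ ^ 2 * (M / Y) ^ 2))) := by positivity
  have q9 : 0 ≤ f * (B * Y * ell * (N ^ 2 * (Y / (B * Km) * (1 / B)))) := by positivity
  have q10 : 0 ≤ f * (B * Y * ell * (N ^ 2 * (Y / (B * Km) * (1 / T0)))) := by positivity
  have eR : 34 * (B * Y * ell) * (G * (T0 * sK + e2 + e3) +
        f * (T1 / B * A' + 1 / w + sK +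
          N ^ 2 * (τ ^ 2 * (T1 * M / (B * Y) + (M / Y) ^ 2) +
            Y / (B * Km) * (1 / B + 1 / T0)))) =
      34 * (G * (B * Y * ell * (T0 * sK)) + e2 * (G * (B * Y * ell)) + e3 * (G * (B * Y * ell)) +
        f * (B * Y * ell * (T1 / B * A')) + f * (B * Y * ell * (1 / w)) +
        f * (B * Y * ell * sK) +
        f * (B * Y * ell * (N ^ 2 * (τ ^ 2 * (T1 * M / (B * Y))))) +
        f * (B * Y * ell * (N ^ 2 * (τ ^ 2 * (M / Y) ^ 2))) +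
        f * (B * Y * ell * (N ^ 2 * (Y / (B * Km) * (1 / B)))) +
        f * (B * Y * ell * (N ^ 2 * (Y / (B * Km) * (1 / T0))))) := by
    ring
  have eL : ((e2 + 17 * e3) * (G * Y) + A' * (f * Y) +
        f * (B * (Y * sK) / w + B * K + Y * sK) + f * (N ^ 2 * (τ ^ 2 * M))) * T1 +
      ((e2 + 17 * e3) * (G * (B * Y)) +
        f * (N ^ 2 * (τ ^ 2 * (B * M ^ 2 / Y) + Y / (B * Km) * Y))) * ell +
      f * (N ^ 2 * (Y / (B * Km) * (B * Y))) * (1 / T0) =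
      (e2 + 17 * e3) * (G * Y) * T1 + A' * (f * Y) * T1 + f * (B * (Y * sK) / w) * T1 +
        f * (B * K) * T1 + f * (Y * sK) * T1 + f * (N ^ 2 * (τ ^ 2 * M)) * T1 +
        (e2 + 17 * e3) * (G * (B * Y * ell)) +
        f * (N ^ 2 * (τ ^ 2 * (B * M ^ 2 / Y))) * ell +
        f * (N ^ 2 * (Y / (B * Km) * Y)) * ell +
        f * (N ^ 2 * (Y / (B * Km) * (B * Y))) * (1 / T0) := by
    ring
  have e12 : (e2 + 17 * e3) * (G * (B * Y * ell)) =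
      e2 * (G * (B * Y * ell)) + 17 * (e3 * (G * (B * Y * ell))) := by ring
  rw [eR, eL]
  linarith

/-- one value of `t` -/
lemma large_one (t K Y B η w M τ G F N Km sK T0 T1 A A' c0 c1 c2 : ℝ) (hK' : 0 < K) (hY' : 0 < Y)
    (hB' : 0 < B) (hη : 0 ≤ η) (hG0 : 0 ≤ G) (htr : T0 ≤ t) (htr1 : t ≤ T1) (hT00 : 0 < T0)
    (hT1 : T1 ^ 2 * K ≤ 16 * Y)
    (hA : A = η * (Y / (T0 ^ 2 * K) + 1) + 17 * (B ^ 2 / (K * Y))) (hAA : A ≤ A')
    (hc0 : c0 = A * (G * Y) + A' * (F ^ 2 * Y) + F ^ 2 * (B * (Y * sK) / w + B * K + Y * sK) +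
      F ^ 2 * (N ^ 2 * (τ ^ 2 * M)))
    (hc1 : c1 = A * (G * (B * Y)) +
      F ^ 2 * (N ^ 2 * (τ ^ 2 * (B * M ^ 2 / Y) + Y / (B * Km) * Y)))
    (hc2 : c2 = F ^ 2 * (N ^ 2 * (Y / (B * Km) * (B * Y)))) :
    (η * (Y / (t ^ 2 * K) + 1) + (t * B / Y) ^ 2 + B ^ 2 / (K * Y)) *
        (G * (Y + B * Y / t) + F ^ 2 * Y) +
      F ^ 2 * ((B * (Y * sK) / w + B * K + Y * sK) +
      N ^ 2 * (τ ^ 2 * (M + B * M ^ 2 / (Y * t)) +
        Y / (t * B * Km) * (Y + B * Y / t))) ≤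
    c0 + c1 * (1 / t) + c2 * (1 / t ^ 2) := by
  have ht0 : 0 < t := by linarith
  have a1 : η * (Y / (t ^ 2 * K) + 1) + (t * B / Y) ^ 2 + B ^ 2 / (K * Y) ≤ A := by
    have b1 : Y / (t ^ 2 * K) ≤ Y / (T0 ^ 2 * K) := by gcongr
    have b2 : η * (Y / (t ^ 2 * K) + 1) ≤ η * (Y / (T0 ^ 2 * K) + 1) := by gcongr
    have b3 : (t * B / Y) ^ 2 ≤ 16 * (B ^ 2 / (K * Y)) := by
      have b4 : t ^ 2 * K ≤ 16 * Y := by
        refine le_trans ?_ hT1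
        gcongr
      calc (t * B / Y) ^ 2 = (t ^ 2 * K) * (B ^ 2 / (K * Y ^ 2)) := by field_simp
        _ ≤ (16 * Y) * (B ^ 2 / (K * Y ^ 2)) := by gcongr
        _ = 16 * (B ^ 2 / (K * Y)) := by field_simp
    rw [hA]
    linarith
  have a2 : 0 ≤ G * (Y + B * Y / t) := by positivity
  have a3 := mul_le_mul_of_nonneg_right a1 a2
  have a4 : 0 ≤ F ^ 2 * Y := by positivity
  have a5 := mul_le_mul_of_nonneg_right (a1.trans hAA) a4
  clear a1 hA hAA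
  have e2 : c0 + c1 * (1 / t) + c2 * (1 / t ^ 2) =
      A * (G * (Y + B * Y / t)) + A' * (F ^ 2 * Y) +
      F ^ 2 * ((B * (Y * sK) / w + B * K + Y * sK) +
        N ^ 2 * (τ ^ 2 * (M + B * M ^ 2 / (Y * t)) + Y / (t * B * Km) * (Y + B * Y / t))) := by
    rw [hc0, hc1, hc2]
    have i1 : (1 : ℝ) / t = t⁻¹ := one_div _
    have i2 : (1 : ℝ) / t ^ 2 = t⁻¹ ^ 2 := by rw [one_div, inv_pow]
    rw [i1, i2]
    simp only [div_eq_mul_inv, mul_inv]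
    ring
  rw [e2, mul_add]
  linarith

/-- the small `t` -/
lemma small_part (cρ CW ell B Y G F T0 sK Q E : ℝ) (hcρ : 0 ≤ cρ) (hCW : 0 < CW) (hell1 : 1 ≤ ell)
    (hB' : 0 < B) (hY' : 0 < Y) (hT0 : 1 ≤ T0) (hQ0 : 0 ≤ Q) (hE0 : 0 ≤ E)
    (hQ : Q ≤ CW * (cρ * (4 * B * sK) * (ell * (G * Y)) + F ^ 2 * Y * ell ^ 4))
    (hE1 : G * (T0 * sK) ≤ E) (hE2 : F ^ 2 * (T0 / B) ≤ E) :
    2 * Q + 2 * (T0 * (2 * Q)) ≤ (24 * cρ * CW + 6 * CW) * ell ^ 5 * (B * Y) * E := by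
  have hell0 : 0 < ell := by linarith
  have u1 : 2 * Q + 2 * (T0 * (2 * Q)) ≤ 6 * T0 * Q := by nlinarith
  have u2 : 6 * T0 * Q ≤
      6 * T0 * (CW * (cρ * (4 * B * sK) * (ell * (G * Y)) + F ^ 2 * Y * ell ^ 4)) := by
    gcongr
  have hBB : B * (T0 / B) = T0 := by field_simp
  have u3 : 6 * T0 * (CW * (cρ * (4 * B * sK) * (ell * (G * Y)) + F ^ 2 * Y * ell ^ 4)) =
      24 * cρ * CW * (ell * 1) * (B * Y) * (G * (T0 * sK)) +
        6 * CW * (ell ^ 4 * 1) * (B * Y) * (F ^ 2 * (T0 / B)) := by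
    linear_combination (-(6 * CW * ell ^ 4 * Y * F ^ 2)) * hBB
  have hp4 : (1 : ℝ) ≤ ell ^ 4 := one_le_pow₀ hell1
  have u4 : 24 * cρ * CW * (ell * 1) * (B * Y) * (G * (T0 * sK)) ≤
      24 * cρ * CW * (ell * ell ^ 4) * (B * Y) * E := by
    calc 24 * cρ * CW * (ell * 1) * (B * Y) * (G * (T0 * sK)) ≤
          24 * cρ * CW * (ell * 1) * (B * Y) * E :=
          mul_le_mul_of_nonneg_left hE1 (by positivity)
      _ ≤ 24 * cρ * CW * (ell * ell ^ 4) * (B * Y) * E := by gcongr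
  have u5 : 6 * CW * (ell ^ 4 * 1) * (B * Y) * (F ^ 2 * (T0 / B)) ≤
      6 * CW * (ell ^ 4 * ell) * (B * Y) * E := by
    calc 6 * CW * (ell ^ 4 * 1) * (B * Y) * (F ^ 2 * (T0 / B)) ≤
          6 * CW * (ell ^ 4 * 1) * (B * Y) * E :=
          mul_le_mul_of_nonneg_left hE2 (by positivity)
      _ ≤ 6 * CW * (ell ^ 4 * ell) * (B * Y) * E := by gcongr
  have u6 : (24 * cρ * CW + 6 * CW) * ell ^ 5 * (B * Y) * E =
      24 * cρ * CW * (ell * ell ^ 4) * (B * Y) * E +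
        6 * CW * (ell ^ 4 * ell) * (B * Y) * E := by ring
  rw [u6]
  linarith

/-- the summation over `t` and the assembly, in real numbers -/
lemma final (cρ K Y B η w M F τ G N CW CF ell sK Q : ℝ) (T0 T1 Km : ℕ) (VV X R : ℕ → ℝ)
    (hcρ : 0 ≤ cρ) (hCW : 0 < CW) (hCF : 0 < CF) (hK : 1 ≤ K) (hY : 1 ≤ Y) (hB : 1 ≤ B)
    (hη : 0 ≤ η) (hη' : η ≤ 1 / 2) (hw : 2 ≤ w) (hM : 1 ≤ M) (hKm' : 1 ≤ Km) (hell1 : 1 ≤ ell)
    (hell : ell = 1 + Real.log Y) (hsK0 : 0 ≤ sK) (hT0' : 1 ≤ T0) (hT01' : T0 ≤ T1)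
    (hTB : (T1 : ℝ) ≤ B) (hT1Y : (T1 : ℝ) ≤ Y) (hT1 : (T1 : ℝ) ^ 2 * K ≤ 16 * Y)
    (hBK : B ^ 2 / (K * Y) ≤ 1 / 8192)
    (hKs : K = Y * sK ^ 2) (hTs : (T1 : ℝ) * sK ≤ 4) (hG0 : 0 ≤ G) (hN0 : 0 ≤ N)
    (hX0 : ∀ t, 0 ≤ X t) (hR0 : ∀ t, 0 ≤ R t) (hQ0 : 0 ≤ Q)
    (hQ : Q ≤ CW * (cρ * (4 * B * sK) * (ell * (G * Y)) + F ^ 2 * Y * ell ^ 4))
    (hsplit : ∑ t ∈ Icc 1 T1, VV t ≤ (T0 : ℝ) * (2 * Q) + ∑ t ∈ Ioc T0 T1, |VV t|)
    (hall : ∀ t : ℕ, T0 < t → t ≤ T1 → |VV t| ≤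
      CF * ell ^ 4 *
        ((η * (Y / ((t : ℝ) ^ 2 * K) + 1) + (t * B / Y) ^ 2 + B ^ 2 / (K * Y)) *
            (G * (Y + B * Y / t) + F ^ 2 * Y) +
          F ^ 2 * ((B * (Y * sK) / w + B * K + Y * sK) +
          N ^ 2 * (τ ^ 2 * (M + B * M ^ 2 / (Y * t)) +
            Y / (t * B * Km) * (Y + B * Y / t)))) +
      CF * N * (B / Y) * R t * X t) :
    2 * Q + 2 * ∑ t ∈ Icc 1 T1, VV t ≤
      (24 * cρ * CW + 6 * CW + 68 * CF) * ell ^ 5 * (B * Y) *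
        (G * (T0 * sK + η * (Y / ((T0 : ℝ) ^ 2 * K) + 1) + B ^ 2 / (K * Y)) +
          F ^ 2 * (T1 / B * (1 + Y / ((T0 : ℝ) ^ 2 * K)) + 1 / w + sK +
            N ^ 2 * (τ ^ 2 * (T1 * M / (B * Y) + (M / Y) ^ 2) +
              Y / (B * Km) * (1 / B + 1 / T0)))) +
      (24 * cρ * CW + 6 * CW + 68 * CF) * N * (B / Y) *
        ∑ t ∈ Ioc T0 T1, R t * X t := by
  have hY' : 0 < Y := by linarith
  have hK' : 0 < K := by linarith
  have hB' : 0 < B := by linarith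
  have hw' : 0 < w := by linarith
  have hM' : 0 < M := by linarith
  have hT0 : (1 : ℝ) ≤ T0 := by exact_mod_cast hT0'
  have hT01 : (T0 : ℝ) ≤ T1 := by exact_mod_cast hT01'
  have hKm : (1 : ℝ) ≤ Km := by exact_mod_cast hKm'
  have hT00 : (0 : ℝ) < T0 := by linarith
  have hT10 : (0 : ℝ) < T1 := by linarith
  have hell0 : 0 < ell := by linarith
  have har := arith K Y B η w M τ G F N Km ell sK T0 T1 hK hY hB hη hw hM hKm hell1 hsK0 hT0 hT01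
    hTB hKs hTs hG0
  set A : ℝ := η * (Y / ((T0 : ℝ) ^ 2 * K) + 1) + 17 * (B ^ 2 / (K * Y)) with hA
  set A' : ℝ := 1 + Y / ((T0 : ℝ) ^ 2 * K) with hA'
  have hA0 : 0 ≤ A := by positivity
  have hA'0 : 0 ≤ A' := by positivity
  have hAA : A ≤ A' := by
    have h1 : 0 ≤ Y / ((T0 : ℝ) ^ 2 * K) := by positivity
    rw [hA, hA']
    have h2 : η * (Y / ((T0 : ℝ) ^ 2 * K) + 1) ≤ 1 / 2 * (Y / ((T0 : ℝ) ^ 2 * K) + 1) := by gcongr
    linarith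
  set c0 : ℝ := A * (G * Y) + A' * (F ^ 2 * Y) + F ^ 2 * (B * (Y * sK) / w + B * K + Y * sK) +
    F ^ 2 * (N ^ 2 * (τ ^ 2 * M)) with hc0
  set c1 : ℝ := A * (G * (B * Y)) +
    F ^ 2 * (N ^ 2 * (τ ^ 2 * (B * M ^ 2 / Y) + Y / (B * Km) * Y)) with hc1
  set c2 : ℝ := F ^ 2 * (N ^ 2 * (Y / (B * Km) * (B * Y))) with hc2
  have hc00 : 0 ≤ c0 := by positivity
  have hc10 : 0 ≤ c1 := by positivity
  have hc20 : 0 ≤ c2 := by positivity
  have hlarge : ∀ t ∈ Ioc T0 T1, |VV t| ≤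
      CF * ell ^ 4 * (c0 + c1 * (1 / (t : ℝ)) + c2 * (1 / (t : ℝ) ^ 2)) +
        CF * N * (B / Y) * (R t * X t) := by
    intro t ht
    rw [Finset.mem_Ioc] at ht
    refine (hall t ht.1 ht.2).trans ?_
    have htr : (T0 : ℝ) ≤ t := by exact_mod_cast ht.1.le
    have htr1 : (t : ℝ) ≤ T1 := by exact_mod_cast ht.2
    have ht0 : (0 : ℝ) < t := by linarith
    have e1 : CF * N * (B / Y) * R t * X t = CF * N * (B / Y) * (R t * X t) := by ring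
    rw [e1]
    refine add_le_add ?_ le_rfl
    refine mul_le_mul_of_nonneg_left ?_ (by positivity)
    exact large_one t K Y B η w M τ G F N Km sK T0 T1 A A' c0 c1 c2 hK' hY' hB' hη hG0 htr htr1 hT00
      hT1 hA hAA hc0 hc1 hc2
  clear_value A A' c0 c1 c2
  have hsum : ∑ t ∈ Ioc T0 T1, |VV t| ≤
      CF * ell ^ 4 * (c0 * T1 + c1 * ell + c2 * (1 / T0)) +
        CF * N * (B / Y) * ∑ t ∈ Ioc T0 T1, R t * X t := by
    refine (Finset.sum_le_sum hlarge).trans ?_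
    rw [Finset.sum_add_distrib, ← Finset.mul_sum, ← Finset.mul_sum]
    refine add_le_add ?_ le_rfl
    refine mul_le_mul_of_nonneg_left ?_ (by positivity)
    rw [hell]
    exact XV.VARM.sum_bound c0 c1 c2 Y hc00 hc10 hc20 T0 T1 hT0' hT01' hT1Y
  obtain ⟨E, hE⟩ : ∃ E : ℝ, E =
      G * (T0 * sK + η * (Y / ((T0 : ℝ) ^ 2 * K) + 1) + B ^ 2 / (K * Y)) +
          F ^ 2 * (T1 / B * A' + 1 / w + sK +
            N ^ 2 * (τ ^ 2 * (T1 * M / (B * Y) + (M / Y) ^ 2) +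
              Y / (B * Km) * (1 / B + 1 / T0))) := ⟨_, rfl⟩
  rw [← hE] at har ⊢
  have hA'1 : 1 ≤ A' := by
    rw [hA']
    have : 0 ≤ Y / ((T0 : ℝ) ^ 2 * K) := by positivity
    linarith
  have hE1 : G * (T0 * sK) ≤ E := by
    rw [hE]
    have h1 : 0 ≤ G * (η * (Y / ((T0 : ℝ) ^ 2 * K) + 1) + B ^ 2 / (K * Y)) := by positivity
    have h2 : 0 ≤ F ^ 2 * (T1 / B * A' + 1 / w + sK +
            N ^ 2 * (τ ^ 2 * (T1 * M / (B * Y) + (M / Y) ^ 2) +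
              Y / (B * Km) * (1 / B + 1 / T0))) := by positivity
    have h3 : G * (T0 * sK + η * (Y / ((T0 : ℝ) ^ 2 * K) + 1) + B ^ 2 / (K * Y)) =
        G * (T0 * sK) + G * (η * (Y / ((T0 : ℝ) ^ 2 * K) + 1) + B ^ 2 / (K * Y)) := by ring
    linarith
  have hE2 : F ^ 2 * (T0 / B) ≤ E := by
    rw [hE]
    have h1 : 0 ≤ G * (T0 * sK + η * (Y / ((T0 : ℝ) ^ 2 * K) + 1) + B ^ 2 / (K * Y)) := by
      positivity
    have h2 : 0 ≤ F ^ 2 * (1 / w + sK +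
            N ^ 2 * (τ ^ 2 * (T1 * M / (B * Y) + (M / Y) ^ 2) +
              Y / (B * Km) * (1 / B + 1 / T0))) := by positivity
    have h3 : F ^ 2 * (T1 / B * A' + 1 / w + sK +
            N ^ 2 * (τ ^ 2 * (T1 * M / (B * Y) + (M / Y) ^ 2) +
              Y / (B * Km) * (1 / B + 1 / T0))) =
        F ^ 2 * (T1 / B * A') + F ^ 2 * (1 / w + sK +
            N ^ 2 * (τ ^ 2 * (T1 * M / (B * Y) + (M / Y) ^ 2) +
              Y / (B * Km) * (1 / B + 1 / T0))) := by ring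
    have h4 : F ^ 2 * (T0 / B) ≤ F ^ 2 * (T1 / B * A') := by
      have h5 : (T0 : ℝ) / B ≤ T1 / B * A' := by
        calc (T0 : ℝ) / B ≤ T1 / B := by gcongr
          _ = T1 / B * 1 := by ring
          _ ≤ T1 / B * A' := by gcongr
      gcongr
    linarith
  have hE0 : 0 ≤ E := le_trans (by positivity) hE1
  clear hE
  have hXs : 0 ≤ ∑ t ∈ Ioc T0 T1, R t * X t :=
    Finset.sum_nonneg fun t _ => mul_nonneg (hR0 t) (hX0 t)
  obtain ⟨Sg, hSg⟩ : ∃ Sg : ℝ, Sg = ∑ t ∈ Ioc T0 T1, R t * X t := ⟨_, rfl⟩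
  rw [← hSg] at hsum hXs ⊢
  -- assembly
  have r1 : 2 * Q + 2 * ((T0 : ℝ) * (2 * Q)) ≤
      (24 * cρ * CW + 6 * CW) * ell ^ 5 * (B * Y) * E :=
    small_part cρ CW ell B Y G F T0 sK Q E hcρ hCW hell1 hB' hY' hT0 hQ0 hE0 hQ hE1 hE2
  have r2 : CF * ell ^ 4 * (c0 * T1 + c1 * ell + c2 * (1 / T0)) ≤
      34 * CF * ell ^ 5 * (B * Y) * E := by
    calc CF * ell ^ 4 * (c0 * T1 + c1 * ell + c2 * (1 / T0)) ≤
          CF * ell ^ 4 * (34 * (B * Y * ell) * E) :=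
          mul_le_mul_of_nonneg_left har (by positivity)
      _ = 34 * CF * ell ^ 5 * (B * Y) * E := by ring
  have r3 : 2 * (CF * N * (B / Y) * Sg) ≤
      (24 * cρ * CW + 6 * CW + 68 * CF) * N * (B / Y) * Sg := by
    have : 2 * CF ≤ 24 * cρ * CW + 6 * CW + 68 * CF := by
      have : 0 ≤ cρ * CW := by positivity
      linarith
    calc 2 * (CF * N * (B / Y) * Sg) = 2 * CF * N * (B / Y) * Sg := by ring
      _ ≤ _ := by gcongr
  have e5 : (24 * cρ * CW + 6 * CW + 68 * CF) * ell ^ 5 * (B * Y) * E =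
      (24 * cρ * CW + 6 * CW) * ell ^ 5 * (B * Y) * E +
        2 * (34 * CF * ell ^ 5 * (B * Y) * E) := by ring
  rw [e5]
  linarith [hsplit, hsum, r1, r2, r3]

end VAR3M

/-- **VAR3**: the variance inequality with a mean square. -/
theorem specVAR3 (hLIN : SpecLIN3) (hSML : SpecSML3) (hWPC : SpecWPC) (hHTM3 : SpecHTM3)
    (hFNA : SpecFNA3) : SpecVAR3 := by
  classical
  intro κ ρ hκ hρ
  have hHTM : XV.SpecHTM := XV.specHTM
  obtain ⟨CF, hCF, HF⟩ := hFNA κ ρ hκ hρ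
  obtain ⟨CW, hCW, HW⟩ := hWPC
  refine ⟨24 * (Real.sqrt ρ * Real.sqrt (2 * κ)) * CW + 6 * CW + 68 * CF, by positivity, ?_⟩
  intro K Y B η w M F G τ T0 T1 Km I J L P S h Z hpar3 hτ hZ
  have hpar := hpar3.par
  have hK : 1 ≤ K := hpar.hK
  have hB : 1 ≤ B := hpar.hB
  have hF : 0 ≤ F := hpar.hF
  have hY : 1 ≤ Y := hpar.hM.trans hpar.hMY
  have hY' : 0 < Y := by linarith
  have hK' : 0 < K := by linarith
  have hB' : 0 < B := by linarith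
  have hT0 : (1 : ℝ) ≤ T0 := by exact_mod_cast hpar.hT0
  have hT01 : (T0 : ℝ) ≤ T1 := by exact_mod_cast hpar.hT01
  have hT1Y : (T1 : ℝ) ≤ Y := by
    have h1 := hpar.hBY
    have : (T1 : ℝ) ≤ 32 * ρ * T1 * B := by
      have h2 : (1 : ℝ) ≤ 32 * ρ * B := by nlinarith [hpar.hρ]
      have h3 : (0 : ℝ) ≤ T1 := by positivity
      nlinarith
    linarith
  have hlog : 0 ≤ Real.log Y := Real.log_nonneg hY
  set ell := 1 + Real.log Y with hell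
  have hell1 : 1 ≤ ell := by linarith
  -- the set of products
  have hSUe : ∀ x ∈ SU I J P S, x ∈ disc Y ∧ Y / ρ ≤ (nm x : ℝ) := by
    intro x hx
    unfold SU at hx
    simp only [Finset.mem_biUnion] at hx
    obtain ⟨i, hi, j, hj, hx⟩ := hx
    unfold ms at hx
    simp only [Finset.mem_image, Finset.mem_product] at hx
    obtain ⟨q, ⟨hq1, hq2⟩, rfl⟩ := hx
    rw [mem_disc]
    refine ⟨⟨?_, (hpar.hL' i hi j hj q.1 hq1 q.2 hq2).2.trans (hpar.hL i hi j hj).2⟩,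
      (hpar.hL i hi j hj).1.trans (hpar.hL' i hi j hj q.1 hq1 q.2 hq2).1⟩
    exact mul_ne_zero (GP_ne_zero (hpar.hP i hi hq1)) (mem_disc.1 (hpar.hS j hj hq2)).1
  have hSU : SU I J P S ⊆ disc Y := fun x hx => (hSUe x hx).1
  obtain ⟨gg, hgg⟩ : ∃ gg : Gi → ℝ,
      gg = fun z => ∑ i ∈ I, ∑ j ∈ J, ‖mc (P i) (S j) (h j) z‖ := ⟨_, rfl⟩
  have hgg0 : ∀ z, 0 ≤ gg z := fun z => by
    rw [hgg]
    exact Finset.sum_nonneg fun _ _ => Finset.sum_nonneg fun _ _ => norm_nonneg _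
  have hfg : ∀ z, ‖fU I J P S h z‖ ≤ gg z := by
    intro z
    rw [hgg]
    unfold fU
    exact le_trans (norm_sum_le _ _) (Finset.sum_le_sum fun i _ => norm_sum_le _ _)
  have hggF : ∀ z ∈ SU I J P S, |gg z| ≤ F * ell := by
    intro z hz
    rw [abs_of_nonneg (hgg0 z), hgg]
    exact hHTM.2 Y F I J P S h hY hF hpar.hP hpar.hPd hpar.hh z (hSU hz)
  have hL := hLIN κ K B Y T1 Z (SU I J P S) (fU I J P S h) hκ hK' hB' hpar.hT1 hZ hSU
  have hLHS : ∑ z1 ∈ Z, ∑ b ∈ Ioc ⌊B⌋ ⌊2 * B⌋, ‖∑ i ∈ I, ∑ j ∈ J, ∑ p ∈ P i,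
        ∑ z ∈ (S j).filter (fun z => (z1 * (p * z)).im = b ∧ 0 < (z1 * (p * z)).re), h j z‖ ^ 2 =
      ∑ z1 ∈ Z, ∑ b ∈ Ioc ⌊B⌋ ⌊2 * B⌋, ‖ls (SU I J P S) (fU I J P S h) z1 b‖ ^ 2 := by
    refine Finset.sum_congr rfl fun z1 _ => Finset.sum_congr rfl fun b _ => ?_
    rw [XV.VARM.ls_eq]
  rw [hLHS]
  refine hL.trans ?_
  clear hLHS hL
  obtain ⟨Q, hQdef⟩ : ∃ Q : ℝ, Q = ∑ z ∈ SU I J P S, ‖fU I J P S h z‖ ^ 2 *
      (nz (2 * κ * K) (4 * B) z : ℝ) := ⟨_, rfl⟩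
  rw [← hQdef]
  have hQ0 : 0 ≤ Q := by
    rw [hQdef]
    exact Finset.sum_nonneg fun _ _ => by positivity
  -- square roots
  set sK := Real.sqrt (K / Y) with hsK
  have hsK0 : 0 ≤ sK := Real.sqrt_nonneg _
  have hsK2 : sK ^ 2 = K / Y := Real.sq_sqrt (by positivity)
  have hKs : K = Y * sK ^ 2 := by rw [hsK2]; field_simp
  have hKY : Real.sqrt (K * Y) = Y * sK := by
    have : K * Y = (Y * sK) ^ 2 := by rw [mul_pow, hsK2]; field_simp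
    rw [this, Real.sqrt_sq (by positivity)]
  have hTs : (T1 : ℝ) * sK ≤ 4 := by
    have h1 : ((T1 : ℝ) * sK) ^ 2 ≤ 4 ^ 2 := by
      rw [mul_pow, hsK2]
      have h2 := hpar.hT1'
      rw [← mul_div_assoc, div_le_iff₀ hY']
      linarith
    exact le_of_sq_le_sq h1 (by norm_num)
  have hBK : B ^ 2 / (K * Y) ≤ 1 / 8192 := by
    have h1 := hpar.hBY
    have hT1p : (0 : ℝ) < T1 := by linarith
    have h2 : 32 * (T1 * B) ≤ Y := by
      have : 32 * (T1 * B) * 1 ≤ 32 * (T1 * B) * ρ :=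
        mul_le_mul_of_nonneg_left hρ (by positivity)
      linarith
    have h3 : (32 * (T1 * B)) ^ 2 ≤ Y ^ 2 := by
      have : 0 ≤ 32 * ((T1 : ℝ) * B) := by positivity
      gcongr
    have h4 := hpar.hT1
    rw [div_le_div_iff₀ (by positivity) (by norm_num)]
    have h5 : (B ^ 2 * 8192) * Y ≤ (1 * (K * Y)) * Y := by
      calc (B ^ 2 * 8192) * Y = 1024 * B ^ 2 * (8 * Y) := by ring
        _ ≤ 1024 * B ^ 2 * ((T1 : ℝ) ^ 2 * K) := by gcongr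
        _ = (32 * (T1 * B)) ^ 2 * K := by ring
        _ ≤ Y ^ 2 * K := by gcongr
        _ = (1 * (K * Y)) * Y := by ring
    exact le_of_mul_le_mul_right h5 hY'
  have hQ : Q ≤ CW * ((Real.sqrt ρ * Real.sqrt (2 * κ)) * (4 * B * sK) * (ell * (G * Y)) +
      F ^ 2 * Y * ell ^ 4) := by
    have h1 : Q ≤ ∑ z ∈ SU I J P S, gg z ^ 2 * (nz (2 * κ * K) (4 * B) z : ℝ) := by
      rw [hQdef]
      refine Finset.sum_le_sum fun z _ => ?_
      have := hfg z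
      gcongr
    have h2 := HW ρ (2 * κ * K) Y (4 * B) (F * ell) (SU I J P S) gg hρ
      (by nlinarith) hpar.hKY (by linarith) (by positivity) hSU (fun z hz => (hSUe z hz).2) hggF
    have h3 : ∑ z ∈ SU I J P S, gg z ^ 2 ≤ ell * (G * Y) := by
      have h4 := hHTM3 Y I J P S h (SU I J P S) (disc M) hY hpar.hP hpar.hPd hSU hpar.hS
      have h5 := hpar3.hG
      rw [hgg]
      refine h4.trans ?_
      exact mul_le_mul_of_nonneg_left h5 (by positivity)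
    have h6 : 4 * B * Real.sqrt (2 * κ * K) / Real.sqrt Y = Real.sqrt (2 * κ) * (4 * B * sK) := by
      rw [hsK, Real.sqrt_mul (by positivity), Real.sqrt_div hK'.le]
      ring
    rw [h6] at h2
    refine h1.trans (h2.trans ?_)
    refine mul_le_mul_of_nonneg_left ?_ hCW.le
    have h7 : Real.sqrt ρ * (Real.sqrt (2 * κ) * (4 * B * sK)) * ∑ z ∈ SU I J P S, gg z ^ 2 ≤
        Real.sqrt ρ * (Real.sqrt (2 * κ) * (4 * B * sK)) * (ell * (G * Y)) :=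
      mul_le_mul_of_nonneg_left h3 (by positivity)
    have h8 : Real.sqrt ρ * (Real.sqrt (2 * κ) * (4 * B * sK)) * (ell * (G * Y)) =
        Real.sqrt ρ * Real.sqrt (2 * κ) * (4 * B * sK) * (ell * (G * Y)) := by ring
    have h9 : (F * ell) ^ 2 * Y * (1 + Real.log Y) ^ 2 = F ^ 2 * Y * ell ^ 4 := by
      rw [← hell]
      ring
    linarith
  -- splitting of the sum over t
  have hsplit : ∑ t ∈ Icc 1 T1, VT κ K B t (SU I J P S) (fU I J P S h) ≤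
      (T0 : ℝ) * (2 * Q) +
        ∑ t ∈ Ioc T0 T1, |VT κ K B t (SU I J P S) (fU I J P S h)| := by
    have hd : Icc 1 T1 = Icc 1 T0 ∪ Ioc T0 T1 := by
      ext t
      simp only [Finset.mem_Icc, Finset.mem_union, Finset.mem_Ioc]
      have := hpar.hT01
      have := hpar.hT0
      omega
    have hdis : Disjoint (Icc 1 T0) (Ioc T0 T1) := by
      rw [Finset.disjoint_left]
      intro t h1 h2
      simp only [Finset.mem_Icc, Finset.mem_Ioc] at h1 h2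
      omega
    rw [hd, Finset.sum_union hdis]
    refine add_le_add ?_ (Finset.sum_le_sum fun t _ => le_abs_self _)
    have h1 : ∀ t ∈ Icc 1 T0, VT κ K B t (SU I J P S) (fU I J P S h) ≤ 2 * Q := by
      intro t ht
      rw [Finset.mem_Icc] at ht
      rw [hQdef]
      exact (le_abs_self _).trans
        (hSML κ K B Y t (SU I J P S) (fU I J P S h) hκ hK' hB' ht.1 hSU)
    refine (Finset.sum_le_sum h1).trans ?_
    rw [Finset.sum_const, nsmul_eq_mul, Nat.card_Icc]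
    simp
  -- the sum over large t
  set N : ℝ := (I.card : ℝ) * J.card with hN
  have hN0 : 0 ≤ N := mul_nonneg (Nat.cast_nonneg _) (Nat.cast_nonneg _)
  set X : ℕ → ℝ := fun t => ∑ i ∈ I, ∑ j ∈ J, ∑ q ∈ atyp t Km τ (P i),
          ‖hat t q.1 q.2 (P i) (fun _ => 1)‖ ^ 2 * ‖hat t q.1 q.2 (S j) (h j)‖ ^ 2 with hX
  have hX0 : ∀ t, 0 ≤ X t := fun t => Finset.sum_nonneg fun i _ => Finset.sum_nonneg fun j _ =>
    Finset.sum_nonneg fun q _ => mul_nonneg (sq_nonneg _) (sq_nonneg _)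
  have hall : ∀ t : ℕ, T0 < t → t ≤ T1 → |VT κ K B t (SU I J P S) (fU I J P S h)| ≤
      CF * ell ^ 4 *
        ((η * (Y / ((t : ℝ) ^ 2 * K) + 1) + (t * B / Y) ^ 2 + B ^ 2 / (K * Y)) *
            (G * (Y + B * Y / t) + F ^ 2 * Y) +
          F ^ 2 * ((B * Real.sqrt (K * Y) / w + B * K + Real.sqrt (K * Y)) +
          N ^ 2 * (τ ^ 2 * (M + B * M ^ 2 / (Y * t)) +
            Y / (t * B * Km) * (Y + B * Y / t)))) +
      CF * N * (B / Y) * ((t : ℝ) / ph t) * X t := fun t h1 h2 =>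
    HF K Y B η w M F G τ T0 T1 Km I J L P S h t hpar3 hτ h1 h2
  rw [hKY] at hall
  exact VAR3M.final (Real.sqrt ρ * Real.sqrt (2 * κ)) K Y B η w M F τ G N CW CF ell sK Q T0 T1 Km
    (fun t => VT κ K B t (SU I J P S) (fU I J P S h)) X (fun t => (t : ℝ) / ph t)
    (by positivity) hCW hCF hK hY hB hpar.hη hpar.hη' hpar.hw hpar.hM hpar.hKm hell1 hell hsK0
    hpar.hT0 hpar.hT01 hpar.hTB hT1Y hpar.hT1' hBK hKs hTs hpar3.hG0 hN0 hX0
    (fun t => div_nonneg (Nat.cast_nonneg _) (Nat.cast_nonneg _)) hQ0 hQ hsplit hall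

end Pool.Agent.Lib.MP391708.XV3
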