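import Pool.Agent.Lib.MP_391708_nt.X3.SpecV

/-!
# Theorem X for `k = 3` (MP_391708), part V, module LIN3: linearisation with a mean square in the diagonal terms
-/

set_option autoImplicit false

namespace Pool.Agent.Lib.MP391708.XV3

open Finset Filter Topology Pool.Agent.Lib.MP391708.MR
open Pool.Agent.Lib.MP391708.XV (md crs om1 om2 ls pos VT ncc TT EE ph hat atyp mc ms SU fU Par)
open Pool.Agent.Lib.MP391708.X3 (nz SpecWPC)
open scoped ComplexConjugate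

namespace LIN3M

open Pool.Agent.Lib.MP391708.XV.LINM

theorem nz_eq (X D : ℝ) (z : Gi) : (nz X D z : ℝ) =
    ∑ z1 ∈ disc X, (if |((z1 * z).im : ℝ)| ≤ D then (1 : ℝ) else 0) := by
  classical
  unfold nz
  rw [card_filter]
  push_cast
  refine sum_nbij' (fun z => star z) (fun z => star z) ?_ ?_ ?_ ?_ ?_
  · intro z hz
    rw [mem_disc] at hz ⊢
    exact ⟨star_ne hz.1, by rw [nm_star]; exact hz.2⟩
  · intro z hz
    rw [mem_disc] at hz ⊢
    exact ⟨star_ne hz.1, by rw [nm_star]; exact hz.2⟩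
  · intro z _
    exact star_star z
  · intro z _
    exact star_star z
  · intro u _
    have h : (star u * z).im = crs u z := by
      unfold crs
      simp only [Zsqrtd.im_mul, Zsqrtd.re_star, Zsqrtd.im_star]
      ring
    rw [h]

theorem diag {κ K B : ℝ} {S : Finset Gi} {f : Gi → ℂ} (hB : 0 < B) :
    ∑ z1 ∈ disc (2 * κ * K), om1 κ ((nm z1 : ℝ) / K) *
      ∑ z ∈ Hf S z1, ‖f z‖ ^ 2 * om2 (((z1 * z).im : ℝ) / B) ≤
      2 * ∑ z ∈ S, ‖f z‖ ^ 2 * (nz (2 * κ * K) (4 * B) z : ℝ) := by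
  classical
  have e1 : 2 * ∑ z ∈ S, ‖f z‖ ^ 2 * (nz (2 * κ * K) (4 * B) z : ℝ) =
      ∑ z1 ∈ disc (2 * κ * K), ∑ z ∈ S,
        ‖f z‖ ^ 2 * (2 * (if |((z1 * z).im : ℝ)| ≤ 4 * B then (1 : ℝ) else 0)) := by
    rw [sum_comm, mul_sum]
    refine sum_congr rfl fun z _ => ?_
    rw [nz_eq, ← mul_sum, ← mul_sum]
    ring
  rw [e1]
  refine sum_le_sum fun z1 _ => ?_
  have h1 : om1 κ ((nm z1 : ℝ) / K) * ∑ z ∈ Hf S z1, ‖f z‖ ^ 2 * om2 (((z1 * z).im : ℝ) / B) ≤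
      ∑ z ∈ Hf S z1, ‖f z‖ ^ 2 * om2 (((z1 * z).im : ℝ) / B) := by
    have h2 : 0 ≤ ∑ z ∈ Hf S z1, ‖f z‖ ^ 2 * om2 (((z1 * z).im : ℝ) / B) :=
      sum_nonneg fun z _ => mul_nonneg (by positivity) (om2_nonneg _)
    have h3 := om1_le_one κ ((nm z1 : ℝ) / K)
    nlinarith
  refine h1.trans ?_
  refine (sum_le_sum fun z hz => ?_).trans (sum_le_sum_of_subset_of_nonneg
    (filter_subset _ _) fun z _ _ => ?_)
  · refine mul_le_mul_of_nonneg_left ?_ (by positivity)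
    split_ifs with h
    · have h2 := om2_le (((z1 * z).im : ℝ) / B)
      linarith
    · have h2 : 4 < |((z1 * z).im : ℝ) / B| := by
        rw [abs_div, abs_of_pos hB, lt_div_iff₀ hB]
        exact not_le.1 h
      rw [om2_zero h2]
      simp
  · split_ifs
    · positivity
    · simp

end LIN3M

open Pool.Agent.Lib.MP391708.XV.LINM in
theorem specLIN3 : SpecLIN3 := by
  intro κ K B Y T1 Z S f hκ hK hB hT hZ hS
  have hZ0 : ∀ z ∈ Z, z ≠ 0 := by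
    rintro z hz rfl
    have h1 := (hZ 0 hz).1
    unfold prim at h1
    simp at h1
  have hZd : Z ⊆ disc (2 * κ * K) := by
    intro z hz
    rw [mem_disc]
    refine ⟨hZ0 z hz, (hZ z hz).2.2.trans ?_⟩
    nlinarith [mul_pos (by linarith : (0 : ℝ) < κ) hK]
  calc ∑ z1 ∈ Z, ∑ b ∈ Ioc ⌊B⌋ ⌊2 * B⌋, ‖ls S f z1 b‖ ^ 2
      ≤ ∑ z1 ∈ Z, om1 κ ((nm z1 : ℝ) / K) * W B (Hf S z1) f z1 := by
        refine sum_le_sum fun z1 hz1 => ?_
        obtain ⟨h1, h2, h3⟩ := hZ z1 hz1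
        rw [om1_eq_one hκ ((one_le_div hK).2 h2) ((div_le_iff₀ hK).2 h3), one_mul]
        exact W_ge hB S f h1
    _ ≤ ∑ z1 ∈ disc (2 * κ * K), om1 κ ((nm z1 : ℝ) / K) * W B (Hf S z1) f z1 :=
        sum_le_sum_of_subset_of_nonneg hZd fun z1 _ _ =>
          mul_nonneg (om1_nonneg _ _) (W_nonneg _ _ _ _)
    _ = ∑ z1 ∈ disc (2 * κ * K), om1 κ ((nm z1 : ℝ) / K) *
          ∑ z ∈ Hf S z1, ‖f z‖ ^ 2 * om2 (((z1 * z).im : ℝ) / B) +
        2 * ∑ z1 ∈ disc (2 * κ * K), om1 κ ((nm z1 : ℝ) / K) * Wp B (Hf S z1) f z1 := by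
        rw [mul_sum, ← sum_add_distrib]
        refine sum_congr rfl fun z1 hz1 => ?_
        rw [W_split B (Hf S z1) f (mem_disc.1 hz1).1]
        ring
    _ ≤ 2 * ∑ z ∈ S, ‖f z‖ ^ 2 * (nz (2 * κ * K) (4 * B) z : ℝ) +
          2 * ∑ t ∈ Icc 1 T1, VT κ K B t S f := by
        rw [sum_VT f hκ hK hT hS]
        have := LIN3M.diag (κ := κ) (K := K) (S := S) (f := f) hB
        linarith

end Pool.Agent.Lib.MP391708.XV3
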